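import Pool.Agent.MP_13199e_lc.PP.F.Samp
import Pool.Agent.MP_13199e_lc.PP.G.Kit

/-! PROJECT PP, block F: the circuit that samples the labels of the grid. -/

set_option autoImplicit false

namespace Pool.Agent.PP.F

open Pool.Agent.MP_13199e_lc Pool.Agent.PolyT Pool.Agent.H82

theorem countP_idx {β : Type} (l : List β) (d : β) (p : β → Bool) :
    (List.range l.length).countP (fun a => p (l.getD a d)) = l.countP p := by
  have : (List.range l.length).map (fun a => l.getD a d) = l :=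
    List.ext_getElem (by simp) fun i h1 h2 => by simp [h2]
  conv_rhs => rw [← this, List.countP_map]
  rfl

theorem countP_prs (K Q : ℕ) (p : ℕ × ℕ → Bool) :
    ((List.range K).flatMap fun c => (List.range Q).map fun a => (c, a)).countP p =
      ∑ c ∈ Finset.range K, (List.range Q).countP fun a => p (c, a) := by
  induction K with
  | zero => simp
  | succ K ih =>
    rw [List.range_succ, List.flatMap_append, List.countP_append, ih, Finset.sum_range_succ]
    simp [List.countP_map, Function.comp_def]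

abbrev Key : Type := ℕ × ℕ × ℕ × K3

/-- The semantic core: the system of keys `(0, i, c, k)` (label `i` of copy `c`), `(1, i, c, a)`
(purification chain) and `(2, i, 0, a, l)` (thermometer). -/
theorem core {m : ℕ} {lam : ℕ → List ℕ → Bool} {Sol : List ℕ → Prop} (hL : Lab m lam Sol)
    (N Q : ℕ) (hN : N = m + 1) (hQ : Q = 3 * N * (3 * N * 88)) (prs il : List (ℕ × ℕ))
    (hp : prs = (List.range (3 * N)).flatMap fun c => (List.range Q).map fun a => (c, a))
    (hi : il = (List.range N).flatMap fun i => (List.range 88).map fun l => (i, l))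
    (pnt : List Bool → List ℕ) (hpn : ∀ w, pnt w = (List.range N).map fun i =>
      ((List.range 88).filter fun l => w.getD (il.idxOf (i, l)) false).length)
    (x : Key → V4) (tk : ℕ → ℕ × ℕ → Key)
    (htk : ∀ c p, tk c p = (2, p.1, 0, prs.length, thr N Q p.2 c, 0)) (vote : ℕ → ℕ → Key)
    (h0 : ∀ i < N, ∀ c < 3 * N, ∀ w : List Bool, w.length = il.length →
      (∀ j < w.length, x (tk c (il.getD j (0, 0))) = ofB (w.getD j false)) →
      x (vote i c) = ofB (lam i (pnt w)))
    (h1 : ∀ i < N, ∀ c < 3 * N, ∀ a < Q, DOk x (1, i, c, a, 0, 0)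
      [((if a = 0 then vote i c else (1, i, c, a - 1, 0, 0), false, true),
        (if a = 0 then vote i c else (1, i, c, a - 1, 0, 0), false, true))])
    (lf : ℕ → ℕ → Key)
    (hlf : ∀ i a, lf i a = (1, i, (prs.getD a (0, 0)).1, (prs.getD a (0, 0)).2, 0, 0))
    (h2 : ∀ i < N, ∀ l < prs.length, DOk x (2, i, 0, 0, l, 0) [] ∧ ∀ a < prs.length,
      DOk x (2, i, 0, a + 1, l, 0) [(((2, i, 0, a, l, 0), false, true),
        ((2, i, 0, a, l, 0), false, true)), ((lf i a, true, true),
          if l = 0 then (lf i a, true, true) else ((2, i, 0, a, l - 1, 0), false, true))]) :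
    ∃ c < 3 * N, Sol (pnt (il.map fun p => eqB (x (tk c p)) 3)) := by
  have N0 : 0 < N := by omega
  have lp : prs.length = 3 * N * Q := by simp [hp, List.length_flatMap]
  have mi : ∀ p, p ∈ il ↔ p.1 < N ∧ p.2 < 88 := fun p => by
    simp only [hi, List.mem_flatMap, List.mem_map, List.mem_range]
    exact ⟨fun ⟨i, a, l, b, e⟩ => e ▸ ⟨a, b⟩, fun h => ⟨p.1, h.1, p.2, h.2, rfl⟩⟩
  have ch : ∀ i < N, ∀ c < 3 * N, ∀ a, a + 1 < Q → DOk x (1, i, c, a + 1, 0, 0)
      [(((1, i, c, a, 0, 0), false, true), ((1, i, c, a, 0, 0), false, true))] :=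
    fun i hi c hc a ha => by simpa using h1 i hi c hc (a + 1) ha
  refine sample hL N Q hN hQ
    (fun i c => (List.range Q).countP fun a => isT (x (1, i, c, a, 0, 0)))
    (fun i c => (List.range Q).countP fun a => noF (x (1, i, c, a, 0, 0))) _
    (fun i hi c hc => ⟨chain (fun a => (1, i, c, a, 0, 0)) Q (ch i hi c hc),
      List.countP_le_length.trans (by simp)⟩) (fun c hc cl => ?_)
    fun i _ c _ => List.countP_mono_left fun a _ => by
      generalize x (1, i, c, a, 0, 0) = v
      revert v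
      decide
  have th : ∀ p ∈ il, x (tk c p) = ofB (decide (thr N Q p.2 c < ∑ c ∈ Finset.range (3 * N),
      (List.range Q).countP fun a => isT (x (1, p.1, c, a, 0, 0)))) := fun p hp' => by
    obtain ⟨p1, p2⟩ := (mi p).1 hp'
    have t1 : thr N Q p.2 c < prs.length := by
      have := thr_lt N0 p2 hc
      rw [← hQ] at this
      exact lp ▸ this.trans_le (Nat.mul_le_mul_right _ (by omega))
    have t2 := thermo (x := x) (fun a l => (2, p.1, 0, a, l, 0)) (lf p.1) prs.length prs.length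
      (fun l hl => (h2 p.1 p1 l hl).1) (fun a ha l hl => (h2 p.1 p1 l hl).2 a ha) _ le_rfl _ t1
    simp only [hlf] at t2
    rw [countP_idx prs (0, 0) fun q => isT (x (1, p.1, q.1, q.2, 0, 0)),
      countP_idx prs (0, 0) fun q => noF (x (1, p.1, q.1, q.2, 0, 0)), ← htk] at t2
    rw [hp, countP_prs, countP_prs] at t2
    by_cases k : thr N Q p.2 c < ∑ c ∈ Finset.range (3 * N),
      (List.range Q).countP fun a => isT (x (1, p.1, c, a, 0, 0))
    · rw [decide_eq_true k]
      exact t2.1 k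
    · rw [decide_eq_false k]
      exact t2.2 ((cl p.1 p1 p.2 p2).resolve_left k)
  have eb : ∀ b, eqB (ofB b) 3 = b := by decide
  intro i hi'
  have pure : ∀ a < Q, x (1, i, c, a, 0, 0) =
      ofB (lam i (pnt (il.map fun p => eqB (x (tk c p)) 3))) := fun a ha => by
    have v0 := h0 i hi' c hc (il.map fun p => eqB (x (tk c p)) 3) (by simp) fun j hj => by
      rw [List.length_map] at hj
      rw [List.getD_eq_getElem _ _ hj, List.getD_eq_getElem _ _ (by simpa using hj),
        List.getElem_map, th _ (List.getElem_mem hj), eb]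
    have v1 := h1 i hi' c hc 0 (by omega)
    rw [if_pos rfl] at v1
    simpa using chain_pure (fun a => (1, i, c, a, 0, 0)) Q (ch i hi' c hc)
      (v1.copy (lv_pure false v0)) a (by omega)
  refine ⟨?_, fun e => ?_, fun e => ?_⟩
  · rw [hpn, List.getD_eq_getElem _ _ (by simpa using hi'), List.getElem_map, List.getElem_range]
    refine congrArg _ (List.filter_congr fun l hl => ?_)
    have k := (mi (i, l)).2 ⟨hi', List.mem_range.1 hl⟩
    have k' := List.idxOf_lt_length_of_mem k
    rw [List.getD_eq_getElem _ _ (by simpa using k'), List.getElem_map, List.getElem_idxOf, th _ k,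
      eb]
  · rw [List.countP_eq_length.2 fun a ha => by rw [pure a (List.mem_range.1 ha), e]; decide,
      List.length_range]
  · exact List.countP_eq_zero.2 fun a ha => by rw [pure a (List.mem_range.1 ha), e]; decide

theorem base_of (hD : DnfS) (hU : UniS) (hG : GridS) (hS : SolS) : Base1 := by
  obtain ⟨R, lam, dec, pR, pl, pd, hG⟩ := hG
  obtain ⟨t, pt, ht⟩ := hS
  obtain ⟨uN, pN, hN⟩ : ∃ u : BCirc × BCirc → List ℕ, Poly u ∧
      ∀ I, u I = List.range ((R I).length + 1) := ⟨fun I => idx (0 :: R I), by fun_prop, fun _ => rfl⟩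
  obtain ⟨uK, pK, hK⟩ : ∃ u : BCirc × BCirc → List ℕ, Poly u ∧
      ∀ I, u I = List.range (3 * (uN I).length) :=
    ⟨fun I => idx (uN I ++ uN I ++ uN I), by fun_prop, fun I => by
      simp only [idx, List.length_append]
      congr 1
      omega⟩
  obtain ⟨uQ, pQ, hQ⟩ : ∃ u : BCirc × BCirc → List ℕ, Poly u ∧
      ∀ I, u I = List.range (3 * (uN I).length * (3 * (uN I).length * 88)) :=
    ⟨fun I => idx ((uK I).flatMap fun _ => (uK I).flatMap fun _ => List.range 88), by fun_prop,
      fun I => by simp [idx, hK, List.length_flatMap]⟩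
  obtain ⟨prs, pp, hp⟩ : ∃ u : BCirc × BCirc → List (ℕ × ℕ), Poly u ∧
      ∀ I, u I = (uK I).flatMap fun c => (uQ I).map fun a => (c, a) :=
    ⟨_, by fun_prop, fun _ => rfl⟩
  obtain ⟨il, pi, hi⟩ : ∃ u : BCirc × BCirc → List (ℕ × ℕ), Poly u ∧
      ∀ I, u I = (uN I).flatMap fun i => (List.range 88).map fun l => (i, l) :=
    ⟨_, by fun_prop, fun _ => rfl⟩
  obtain ⟨pnt, pn, hn⟩ : ∃ u : (BCirc × BCirc) × List Bool → List ℕ, Poly u ∧
      ∀ a, u a = (uN a.1).map fun i =>
        ((List.range 88).filter fun l => a.2.getD ((il a.1).idxOf (i, l)) false).length :=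
    ⟨_, by fun_prop, fun _ => rfl⟩
  obtain ⟨ks, tm, o, p1, p2, p3, hU⟩ := hU ((BCirc × BCirc) × ℕ)
    (fun a => lam (a.1.1, a.1.2, pnt (a.1.1, a.2))) (by fun_prop)
  obtain ⟨tk, ptk, htk⟩ : ∃ u : (BCirc × BCirc) × ℕ × ℕ × ℕ → Key, Poly u ∧ ∀ a, u a =
      (2, a.2.2.1, 0, (prs a.1).length, thr (uN a.1).length (uQ a.1).length a.2.2.2 a.2.1, 0) :=
    ⟨_, by unfold thr; fun_prop, fun _ => rfl⟩
  obtain ⟨ren, pr, hr⟩ : ∃ u : ((BCirc × BCirc) × ℕ × ℕ) × K3 → Key, Poly u ∧ ∀ a, u a =
      cond (eqB a.2.1 0) (tk (a.1.1, a.1.2.2, (il a.1.1).getD a.2.2.1 (0, 0)))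
        (0, a.1.2.1, a.1.2.2, a.2) := ⟨_, by fun_prop, fun _ => rfl⟩
  obtain ⟨lf, pf, hf⟩ : ∃ u : (BCirc × BCirc) × ℕ × ℕ → Key, Poly u ∧ ∀ a, u a =
      (1, a.2.1, ((prs a.1).getD a.2.2 (0, 0)).1, ((prs a.1).getD a.2.2 (0, 0)).2, 0, 0) :=
    ⟨_, by fun_prop, fun _ => rfl⟩
  obtain ⟨t0, q0, e0⟩ : ∃ u : (BCirc × BCirc) × Key → List (Lt Key × Lt Key), Poly u ∧ ∀ a, u a =
      (tm (((a.1, a.2.2.1), idx (il a.1)), a.2.2.2.2)).map fun p =>
        ((ren ((a.1, a.2.2.1, a.2.2.2.1), p.1.1), p.1.2),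
          (ren ((a.1, a.2.2.1, a.2.2.2.1), p.2.1), p.2.2)) := ⟨_, by fun_prop, fun _ => rfl⟩
  obtain ⟨s1, q1, e1⟩ : ∃ u : (BCirc × BCirc) × Key → Key, Poly u ∧ ∀ a, u a =
      cond (eqB a.2.2.2.2.1 0) (ren ((a.1, a.2.2.1, a.2.2.2.1), o ((a.1, a.2.2.1), idx (il a.1))))
        (1, a.2.2.1, a.2.2.2.1, a.2.2.2.2.1 - 1, 0, 0) := ⟨_, by fun_prop, fun _ => rfl⟩
  obtain ⟨t2, q2, e2⟩ : ∃ u : (BCirc × BCirc) × ℕ × ℕ × ℕ → List (Lt Key × Lt Key), Poly u ∧
      ∀ a, u a = [(((2, a.2.1, 0, a.2.2.1, a.2.2.2, 0), false, true),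
        ((2, a.2.1, 0, a.2.2.1, a.2.2.2, 0), false, true)), ((lf (a.1, a.2.1, a.2.2.1), true, true),
          cond (eqB a.2.2.2 0) (lf (a.1, a.2.1, a.2.2.1), true, true)
            ((2, a.2.1, 0, a.2.2.1, a.2.2.2 - 1, 0), false, true))] :=
    ⟨_, by fun_prop, fun _ => rfl⟩
  obtain ⟨f, r, pf', pr', hD⟩ := hD (BCirc × BCirc) Key
    (fun I => (uN I).flatMap fun i => (uK I).flatMap (fun c =>
      (ks ((I, i), idx (il I))).map (fun k => (0, i, c, k)) ++
        (uQ I).map fun a => (1, i, c, a, 0, 0)) ++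
      (idx ((0, 0) :: prs I)).flatMap fun a => (idx (prs I)).map fun l => (2, i, 0, a, l, 0))
    (fun a => cond (eqB a.2.1 0) (t0 a) (cond (eqB a.2.1 1)
      [((s1 a, false, true), (s1 a, false, true))] (cond (eqB a.2.2.2.2.1 0) []
        (t2 (a.1, a.2.2.1, a.2.2.2.2.1 - 1, a.2.2.2.2.2.1))))) (by fun_prop) (by fun_prop)
  refine ⟨f, fun a => (((uK a.1).map fun c => dec (a.1, pnt (a.1, (il a.1).map fun p =>
    eqB (r (a, tk (a.1, c, p))) 3))).filter fun z => t (a.1, z)).headD [], pf', by fun_prop,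
    fun I hI => ⟨(hD I).1, fun y hy => ?_⟩⟩
  have ok := (hD I).2 y hy
  have lN : (uN I).length = (R I).length + 1 := by simp [hN]
  have mN : ∀ i, i ∈ uN I ↔ i < (uN I).length := fun i => by simp [hN]
  have mK : ∀ i, i ∈ uK I ↔ i < 3 * (uN I).length := fun i => by simp [hK]
  have mQ : ∀ i, i ∈ uQ I ↔ i < (uQ I).length := fun i => by simp [hQ]
  have rN : uN I = List.range (uN I).length := by rw [lN, hN]
  have rQ : uQ I = List.range (uQ I).length := by simp [hQ]
  simp only [List.forall_mem_flatMap, List.forall_mem_append, List.forall_mem_map, mN, mK, mQ,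
    mem_idx, List.length_cons] at ok
  obtain ⟨c, hc, sol⟩ := core (hG I hI) (uN I).length (uQ I).length lN (by simp [hQ]) (prs I) (il I)
    (by rw [hp, hK, ← rQ]) (by rw [hi, ← rN]) (fun w => pnt (I, w)) (fun w => by rw [hn, ← rN])
    (fun k => r ((I, y), k)) (fun c p => tk (I, c, p)) (fun c p => htk _)
    (fun i c => ren ((I, i, c), o ((I, i), idx (il I)))) (fun i hi' c hc w hw hx => by
      obtain ⟨k1, k2⟩ := hU (I, i) (idx (il I))
      refine k2 (fun k => r ((I, y), ren ((I, i, c), k))) w (by simpa using hw)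
        (fun j hj => by simpa [hr, eqB] using hx j hj) fun k hk => ?_
      have g := ((ok i hi').1 c hc).1 k hk
      have g1 : ren ((I, i, c), k) = (0, i, c, k) := by
        rw [hr, eqB_false_iff.2 (k1 k hk)]
        rfl
      rw [eqB_iff.2 rfl, cond_true, e0] at g
      simpa only [DOk, Lv, g1, List.mem_map, forall_exists_index, and_imp,
        forall_apply_eq_imp_iff₂, exists_exists_and_eq_and] using g)
    (fun i hi' c hc a ha => by
      have g := ((ok i hi').1 c hc).2 a ha
      by_cases k : a = 0 <;> simpa [e1, eqB, k] using g)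
    (fun i a => lf (I, i, a)) (fun i a => hf _) fun i hi' l hl => ⟨by
      simpa [eqB] using (ok i hi').2 0 (by omega) l hl, fun a ha => by
      have g := (ok i hi').2 (a + 1) (by omega) l hl
      by_cases k : l = 0 <;> simpa [e2, eqB, k] using g⟩
  have ne : ∀ L : List (List Bool), (∃ z ∈ L, EolSol I z) →
      EolSol I ((L.filter fun z => t (I, z)).headD []) := fun L ⟨z, z1, z2⟩ => by
    have := (List.mem_filter (p := fun z => t (I, z))).2 ⟨z1, (ht I z).2 z2⟩
    cases e : L.filter fun z => t (I, z) with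
    | nil => simp [e] at this
    | cons u l =>
      exact (ht I u).1 ((List.mem_filter (p := fun z => t (I, z))).1 (e ▸ List.mem_cons_self)).2
  exact ne _ ⟨_, List.mem_map.2 ⟨c, (mK c).2 hc, rfl⟩, sol⟩

end Pool.Agent.PP.F
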