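import Pool.Agent.MP_13199e_lc.PP.F.Spec
import Pool.Agent.MP_13199e_lc.PP.G.Kit

/-! PROJECT PP, block F: END OF THE LINE along the edges of a cube. -/

set_option autoImplicit false

namespace Pool.Agent.PP.F

open Pool.Agent.MP_13199e_lc Pool.Agent.PolyT Pool.Agent.H82 N487b59b3

@[fun_prop] theorem p_ev {α : Type} [N487b59b3 α] {C : α → BCirc} {x : α → List Bool}
    (hC : Poly C) (hx : Poly x) : Poly fun a => ev (C a) (x a) := by
  have len : ∀ (l : List (T4 × ℕ × ℕ)) (v : List Bool), (l.foldl (fun v g =>
      v ++ [tt g.1 (v.getD g.2.1 false) (v.getD g.2.2 false)]) v).length = v.length + l.length := by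
    intro l
    induction l with
    | nil => simp
    | cons g l ih => intro v; rw [List.foldl_cons, ih]; simp; omega
  have hw : Poly fun a => wires (C a) (x a) := by
    refine Poly.foldl (f := fun _ v (g : T4 × ℕ × ℕ) =>
      v ++ [tt g.1 (v.getD g.2.1 false) (v.getD g.2.2 false)]) (by unfold tt; fun_prop) hC.fst hx
      ((Bd.const 3).mul (hx.bd.add hC.fst.bd)) fun a n => ?_
    rw [Poly.enc_bools_length, len]
    have h1 := length_le_enc (x a)
    have h2 := (List.length_take_le' n (C a).1).trans (length_le_enc (C a).1)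
    omega
  exact p_map (g := fun a o => (wires (C a) (x a)).getD o false)
    (p_getD (hw.comp (p_fst p_id)) (p_snd p_id) (p_const _)) hC.snd

theorem solS : SolS :=
  ⟨fun a => eqB a.2.length a.1.1.2.length && (!eqB (ev a.1.2 (ev a.1.1 a.2)) a.2 ||
    (!eqB (ev a.1.1 (ev a.1.2 a.2)) a.2 && !eqB a.2 (a.1.1.2.map fun _ => false))), by fun_prop,
    fun I x => by simp [EolSol]⟩

/-- The first element of the list with `E`. -/
def fstI (l : List ℕ) (E : ℕ → Bool) : ℕ := (l.filter E).headD l.length

theorem fstI_lt {m : ℕ} {E : ℕ → Bool} :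
    (fstI (List.range m) E < m ↔ ∃ i < m, E i) ∧ (fstI (List.range m) E < m → E (fstI (List.range m) E)) := by
  unfold fstI
  rcases e : (List.range m).filter E with _ | ⟨i, l⟩
  · simpa using e
  · have : i ∈ (List.range m).filter E := by simp [e]
    simp only [List.mem_filter, List.mem_range] at this
    exact ⟨iff_of_true this.1 ⟨i, this⟩, fun _ => this.2⟩

theorem path_of {m : ℕ} {Ei Eo : List Bool → ℕ → Bool} {Sol : List Bool → Prop}
    (ui : ∀ p i j, Ei p i → Ei p j → i = j) (uo : ∀ p i j, Eo p i → Eo p j → i = j)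
    (adj : ∀ p q i, p.length = m → q.length = m → i < m →
      (∀ k, k ≠ i → p.getD k false = q.getD k false) → p.getD i false ≠ q.getD i false →
      (Eo p i ↔ Ei q i))
    (ne : ∀ p i, p.length = m → Ei p i → Eo p i → False)
    (zero : ¬Sol (List.replicate m false) →
      (∀ i, ¬Ei (List.replicate m false) i) ∧ ∃ i < m, Eo (List.replicate m false) i)
    (bal : ∀ p, p.length = m → p ≠ List.replicate m false → ¬Sol p →
      ((∃ i < m, Ei p i) ↔ ∃ i < m, Eo p i)) :
    Path m (fun p => fstI (List.range m) (Ei p)) (fun p => fstI (List.range m) (Eo p)) Sol := by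
  have key : ∀ E : ℕ → Bool, (∀ i j, E i → E j → i = j) → ∀ i < m,
      (fstI (List.range m) E = i ↔ E i) := fun E u i hi =>
    ⟨fun h => h ▸ fstI_lt.2 (h ▸ hi), fun h => u _ _ (fstI_lt.2 (fstI_lt.1.2 ⟨i, hi, h⟩)) h⟩
  refine ⟨fun p q i hp hq hi h1 h2 => ?_, fun p hp h e => ?_, fun h => ⟨?_, ?_⟩,
    fun p h1 h2 h3 => ?_⟩
  · rw [key _ (uo p) i hi, key _ (ui q) i hi, adj p q i hp hq hi h1 h2]
  · exact ne p _ hp (fstI_lt.2 h) (e ▸ fstI_lt.2 (e ▸ h))
  · exact not_lt.1 fun k => (zero h).1 _ (fstI_lt.2 k)
  · exact fstI_lt.1.2 (zero h).2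
  · rw [fstI_lt.1, fstI_lt.1, bal p h1 h2 h3]

/-- On the way from `s` to `t` the next step from `z` is in the direction `j`. -/
def fw (s t z : List Bool) (j : ℕ) : Bool :=
  ltB j z.length && !eqB (z.getD j false) (t.getD j false) && (idx z).all fun k =>
    eqB (z.getD k false) ((bif ltB k j then t else s).getD k false)

/-- On the way from `s` to `t` the last step to `z` was in the direction `j`. -/
def bw (s t z : List Bool) (j : ℕ) : Bool :=
  ltB j z.length && !eqB (z.getD j false) (s.getD j false) && (idx z).all fun k =>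
    eqB (z.getD k false) ((bif ltB j k then s else t).getD k false)

section
variable {s t z z' : List Bool} {i j : ℕ}

theorem fw_iff : fw s t z j ↔ j < z.length ∧ z.getD j false ≠ t.getD j false ∧ ∀ k < z.length,
    (k < j → z.getD k false = t.getD k false) ∧ (j ≤ k → z.getD k false = s.getD k false) := by
  simp only [fw, Bool.and_eq_true, ltB_iff, Bool.not_eq_true', eqB_false_iff, List.all_eq_true,
    mem_idx, eqB_iff, and_assoc]
  refine and_congr_right fun _ => and_congr_right fun _ => forall₂_congr fun k _ => ?_
  rcases lt_or_ge k j with h | h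
  · simp only [ltB_iff.2 h, cond_true, h, h.not_ge, forall_const, false_imp_iff, and_true]
  · simp only [ltB_false_iff.2 h, cond_false, h, h.not_gt, forall_const, false_imp_iff, true_and]

theorem bw_iff : bw s t z j ↔ j < z.length ∧ z.getD j false ≠ s.getD j false ∧ ∀ k < z.length,
    (k ≤ j → z.getD k false = t.getD k false) ∧ (j < k → z.getD k false = s.getD k false) := by
  simp only [bw, Bool.and_eq_true, ltB_iff, Bool.not_eq_true', eqB_false_iff, List.all_eq_true,
    mem_idx, eqB_iff, and_assoc]
  refine and_congr_right fun _ => and_congr_right fun _ => forall₂_congr fun k _ => ?_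
  rcases lt_or_ge j k with h | h
  · simp only [ltB_iff.2 h, cond_true, h, h.not_ge, forall_const, false_imp_iff, true_and]
  · simp only [ltB_false_iff.2 h, cond_false, h, h.not_gt, forall_const, false_imp_iff, and_true]

theorem fw_uniq (h : fw s t z i) (h' : fw s t z j) : i = j := by
  rw [fw_iff] at h h'; grind

theorem bw_uniq (h : bw s t z i) (h' : bw s t z j) : i = j := by
  rw [bw_iff] at h h'; grind

theorem fw_ne (h : fw s t z i) : z ≠ t := fun e => (fw_iff.1 h).2.1 (e ▸ rfl)

theorem bw_ne (h : bw s t z i) : z ≠ s := fun e => (bw_iff.1 h).2.1 (e ▸ rfl)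

theorem fw_lt (h : fw s t z i) : i < z.length := (fw_iff.1 h).1

theorem bw_lt (h : bw s t z i) : i < z.length := (bw_iff.1 h).1

theorem fw_bw (h : fw s t z i) (h' : bw s t z i) : False := by
  rw [fw_iff] at h; rw [bw_iff] at h'; grind

theorem fw_adj (hl : z.length = z'.length) (h : ∀ k, k ≠ i → z.getD k false = z'.getD k false)
    (h' : z.getD i false ≠ z'.getD i false) : fw s t z i ↔ bw s t z' i := by
  rw [fw_iff, bw_iff, hl]
  have bo : ∀ a b c : Bool, a ≠ b → a ≠ c → b = c := by decide
  refine and_congr_right fun hi => ⟨fun ⟨a, b⟩ => ⟨by grind, fun k hk => ?_⟩,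
    fun ⟨a, b⟩ => ⟨by grind, fun k hk => ?_⟩⟩
  · have := b k hk; have := h k; have := bo _ _ _ h' a; grind
  · have := b k hk; have := h k; have := bo _ _ _ h'.symm a; grind

theorem ext_getD (hl : z.length = s.length)
    (h : ∀ k < z.length, z.getD k false = s.getD k false) : z = s :=
  List.ext_getElem hl fun k h1 h2 => by simpa [h1, h2] using h k h1

theorem fw_bal (hs : z.length = s.length) (ht : z.length = t.length) :
    ((∃ j, bw s t z j) ∨ z = s) ↔ (∃ j, fw s t z j) ∨ z = t := by
  classical
  simp only [fw_iff, bw_iff]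
  constructor
  · intro h
    refine or_iff_not_imp_right.2 fun e => ?_
    have ex : ∃ k, k < z.length ∧ z.getD k false ≠ t.getD k false :=
      by_contra fun u => e (ext_getD ht fun k hk => by_contra fun v => u ⟨k, hk, v⟩)
    have h1 := Nat.find_spec ex
    refine ⟨_, h1.1, h1.2, fun k hk => ⟨fun u => by simpa [hk] using Nat.find_min ex u, ?_⟩⟩
    rcases h with ⟨j, -, -, h⟩ | rfl
    · have := h _ h1.1; have := h k hk; grind
    · exact fun _ => rfl
  · intro h
    refine or_iff_not_imp_right.2 fun e => ?_
    obtain ⟨k0, a, b⟩ : ∃ k, k < z.length ∧ z.getD k false ≠ s.getD k false :=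
      by_contra fun u => e (ext_getD hs fun k hk => by_contra fun v => u ⟨k, hk, v⟩)
    have h1 := Nat.findGreatest_spec (P := fun k => k < z.length ∧ z.getD k false ≠ s.getD k false)
      a.le ⟨a, b⟩
    refine ⟨_, h1.1, h1.2, fun k hk => ⟨?_, fun u => by
      simpa [hk] using Nat.findGreatest_is_greatest u hk.le⟩⟩
    rcases h with ⟨j, -, -, h⟩ | rfl
    · have := h _ h1.1; have := h k hk; grind
    · exact fun _ => rfl

end

/-- An edge of the line starts at `x`. -/
def ed (S P : List Bool → List Bool) (x : List Bool) : Bool := eqB (P (S x)) x && !eqB (S x) x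

/-- Edges out of a point of the cube. -/
def eo (S P : List Bool → List Bool) (n : ℕ) (a b : List Bool) (ph : Bool) (i : ℕ) : Bool :=
  bif ph then ed P S b && (fw (P b) b a i || (eqB i (2 * n) && eqB a b))
  else ed S P a && ((!ltB i n && fw a (S a) b (i - n)) || (eqB i (2 * n) && eqB b (S a)))

/-- Edges into a point of the cube. -/
def ei (S P : List Bool → List Bool) (n : ℕ) (a b : List Bool) (ph : Bool) (i : ℕ) : Bool :=
  bif ph then ed P S b && (bw (P b) b a i || (eqB i (2 * n) && eqB a (P b)))
  else (ed S P a && !ltB i n && bw a (S a) b (i - n)) || (eqB i (2 * n) && eqB b a && ed P S a)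

theorem cube_path (S P : List Bool → List Bool) (n : ℕ) (hS : ∀ x, (S x).length = n)
    (hP : ∀ x, (P x).length = n) (h0 : P (List.replicate n false) = List.replicate n false)
    (h1 : S (List.replicate n false) ≠ List.replicate n false) :
    Path (2 * n + 1)
      (fun p => fstI (List.range (2 * n + 1))
        (ei S P n (p.take n) ((p.drop n).take n) (p.getD (2 * n) false)))
      (fun p => fstI (List.range (2 * n + 1))
        (eo S P n (p.take n) ((p.drop n).take n) (p.getD (2 * n) false)))
      fun p => (p.take n).length = n ∧ (P (S (p.take n)) ≠ p.take n ∨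
        (S (P (p.take n)) ≠ p.take n ∧ p.take n ≠ List.replicate n false)) := by
  have ga : ∀ (p : List Bool) k, (p.take n).getD k false = if k < n then p.getD k false else false :=
    fun p k => by split_ifs with h <;> simp [h]
  have gb : ∀ (p : List Bool) k, ((p.drop n).take n).getD k false =
      if k < n then p.getD (n + k) false else false := fun p k => by rw [ga]; simp
  refine path_of (fun p i j => ?_) (fun p i j => ?_) (fun p q i hp hq hi h h' => ?_)
    (fun p i hp => ?_) (fun h => ?_) fun p hp h h' => ?_
  · cases p.getD (2 * n) false <;> simp only [ei, cond_true, cond_false, Bool.and_eq_true,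
      Bool.or_eq_true, eqB_iff, Bool.not_eq_true', ltB_false_iff] <;>
      grind [→ bw_uniq, → bw_ne]
  · cases p.getD (2 * n) false <;> simp only [eo, cond_true, cond_false, Bool.and_eq_true,
      Bool.or_eq_true, eqB_iff, Bool.not_eq_true', ltB_false_iff] <;>
      grind [→ fw_uniq, → fw_ne]
  · have la : ∀ p : List Bool, p.length = 2 * n + 1 →
        (p.take n).length = n ∧ ((p.drop n).take n).length = n := fun p hp => by simp; omega
    have ea : n ≤ i → p.take n = q.take n := fun u => ext_getD (by grind) fun k hk => by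
      rw [ga, ga]; grind
    have eb : i < n ∨ i = 2 * n → (p.drop n).take n = (q.drop n).take n := fun u =>
      ext_getD (by grind) fun k hk => by rw [gb, gb]; grind
    obtain ⟨l1, l2⟩ := la p hp
    rcases lt_or_ge i n with u | u
    · have := fun s t => fw_adj (s := s) (t := t) (z := p.take n) (z' := q.take n) (i := i)
        (by grind) (fun k hk => by rw [ga, ga]; grind) (by rw [ga, ga]; grind)
      rw [← eb (.inl u), ← h (2 * n) (by omega)]
      cases p.getD (2 * n) false <;>
        simp [eo, ei, this, u.not_ge, show i ≠ 2 * n by omega]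
    rcases eq_or_ne i (2 * n) with rfl | v
    · rw [← eb (.inr rfl), ← ea u, Bool.eq_not_of_ne h'.symm]
      clear ga gb la ea eb
      generalize p.take n = a at *
      generalize (p.drop n).take n = b at *
      cases p.getD (2 * n) false <;> simp only [eo, ei, ed, cond_true, cond_false, Bool.not_true,
        Bool.not_false, Bool.and_eq_true, Bool.or_eq_true, eqB_iff, Bool.not_eq_true',
        ltB_false_iff, eqB_false_iff] <;> grind [→ fw_lt, → bw_lt]
    · have := fun s t => fw_adj (s := s) (t := t) (z := (p.drop n).take n)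
        (z' := (q.drop n).take n) (i := i - n) (l2.trans (la q hq).2.symm)
        (fun k hk => by rw [gb, gb, h (n + k) (by omega)])
        (by rwa [gb, gb, if_pos (by omega), if_pos (by omega), Nat.add_sub_cancel' u])
      rw [← ea u, ← h (2 * n) v.symm]
      clear ga gb la ea eb
      generalize p.take n = a at *
      generalize (p.drop n).take n = b at *
      cases p.getD (2 * n) false <;> simp only [eo, ei, this, cond_true, cond_false,
        Bool.and_eq_true, Bool.or_eq_true, eqB_iff, Bool.not_eq_true', ltB_false_iff] <;>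
        grind [→ fw_lt, → bw_lt]
  · have la : (p.take n).length = n := by simp; omega
    have lb : ((p.drop n).take n).length = n := by simp; omega
    generalize p.take n = a at *
    generalize (p.drop n).take n = b at *
    cases p.getD (2 * n) false <;> simp only [ei, eo, ed, cond_true, cond_false, Bool.and_eq_true,
      Bool.or_eq_true, eqB_iff, Bool.not_eq_true', ltB_false_iff, eqB_false_iff] <;>
      grind [→ fw_bw, → fw_lt, → bw_lt]
  · have e1 : (List.replicate (2 * n + 1) false).take n = List.replicate n false := by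
      simp; omega
    have e2 : ((List.replicate (2 * n + 1) false).drop n).take n = List.replicate n false := by
      simp; omega
    have e3 : (List.replicate (2 * n + 1) false).getD (2 * n) false = false := by simp
    simp only [e1, e2, e3] at h ⊢
    refine ⟨fun i => by simp [ei, ed, h0]; exact fun _ _ _ => Bool.eq_false_iff.2 (bw_ne · rfl), ?_⟩
    obtain ⟨j, hj⟩ := ((fw_bal rfl (t := S (List.replicate n false)) (by simp [hS])).1
      (.inr rfl)).resolve_right h1.symm
    have := (fw_iff.1 hj).1
    refine ⟨n + j, by simp at this; omega, ?_⟩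
    simp [eo, ed, hj, h1] at h ⊢
    exact h
  · have la : (p.take n).length = n := by simp; omega
    have lb : ((p.drop n).take n).length = n := by simp; omega
    have nz : p.getD (2 * n) false = false → (p.drop n).take n = p.take n →
        p.take n ≠ List.replicate n false := fun u v w => h (ext_getD (by simp [hp]) fun k hk => by
      have a := ga p k
      have b := gb p (k - n)
      rw [v] at b
      rw [w] at a b
      simp only [List.getD_eq_getElem?_getD, List.getElem?_getD_replicate_default_eq] at *
      grind)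
    generalize p.take n = a at *
    generalize (p.drop n).take n = b at *
    have b1 := fw_bal (s := a) (t := S a) (z := b) (by omega) (by rw [hS, lb])
    have b2 := fw_bal (s := P b) (t := b) (z := a) (by rw [hP, la]) (by omega)
    have sh : ∀ E : ℕ → Bool, (∀ j, E j → j < n) → ∀ A B : Prop,
        (∃ i < 2 * n + 1, (A ∧ n ≤ i ∧ E (i - n)) ∨ (i = 2 * n ∧ B)) ↔ (A ∧ ∃ j, E j) ∨ B :=
      fun E hE A B => ⟨by grind, by
        rintro (⟨u, j, v⟩ | u)
        · exact ⟨n + j, by grind, .inl ⟨u, by omega, by simpa using v⟩⟩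
        · exact ⟨2 * n, by omega, .inr ⟨rfl, u⟩⟩⟩
    have sh' : ∀ E : ℕ → Bool, (∀ j, E j → j < n) → ∀ A B : Prop,
        (∃ i < 2 * n + 1, A ∧ (E i ∨ (i = 2 * n ∧ B))) ↔ A ∧ ((∃ j, E j) ∨ B) :=
      fun E hE A B => ⟨by grind, by
        rintro ⟨u, ⟨j, v⟩ | v⟩
        · exact ⟨j, by grind, u, .inl v⟩
        · exact ⟨2 * n, by omega, u, .inr ⟨rfl, v⟩⟩⟩
    cases e : p.getD (2 * n) false <;> simp only [ei, eo, cond_true, cond_false, Bool.and_eq_true,
      Bool.or_eq_true, eqB_iff, Bool.not_eq_true', ltB_false_iff, and_assoc]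
    · simp only [and_or_left (a := ed S P a = true), and_left_comm (a := ed S P a = true)
        (b := _ = 2 * n)]
      rw [sh _ fun j u => lb ▸ (bw_iff.1 u).1, sh _ fun j u => lb ▸ (fw_iff.1 u).1]
      simp only [ed, Bool.and_eq_true, eqB_iff, Bool.not_eq_true', eqB_false_iff]
      have := nz e
      grind [→ bw_ne]
    · rw [sh' _ fun j u => la ▸ (bw_iff.1 u).1, sh' _ fun j u => la ▸ (fw_iff.1 u).1, b2]

theorem cubeS : CubeS := by
  refine ⟨fun x => fstI (idx (0 :: (x.1.1.2 ++ x.1.1.2))) (ei (ev x.1.1) (ev x.1.2) x.1.1.2.length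
      (x.2.take x.1.1.2.length) ((x.2.drop x.1.1.2.length).take x.1.1.2.length)
      (x.2.getD (2 * x.1.1.2.length) false)),
    fun x => fstI (idx (0 :: (x.1.1.2 ++ x.1.1.2))) (eo (ev x.1.1) (ev x.1.2) x.1.1.2.length
      (x.2.take x.1.1.2.length) ((x.2.drop x.1.1.2.length).take x.1.1.2.length)
      (x.2.getD (2 * x.1.1.2.length) false)), ?_, ?_, fun I hI => ?_⟩
  · unfold fstI ei ed bw; fun_prop
  · unfold fstI eo ed fw; fun_prop
  · simp only [idx, List.length_cons, List.length_append, ← two_mul]
    exact cube_path _ _ _ (fun _ => List.length_map _) (fun _ => (List.length_map _).trans hI.1)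
      hI.2.1 hI.2.2

end Pool.Agent.PP.F
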