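import Pool.Agent.MP_13199e_lc.PP.F.Spec
import Pool.Agent.MP_13199e_lc.PP.G.Kit

/-! PROJECT PP, block F: systems of keyed disjunctions are plain circuits. -/

set_option autoImplicit false

namespace Pool.Agent.PP.F

open Pool.Agent.MP_13199e_lc Pool.Agent.PolyT Pool.Agent.H82

namespace Dnf

variable {κ : Type} [DecidableEq κ]

/-- The constant gate. -/
def g0 : PGate := ((false, false, false, false), (0, false), (0, false))

/-- All plain keys. -/
def pk (K : List κ) (tm : κ → List (Lt κ × Lt κ)) : List (κ × ℕ × Bool) :=
  K.flatMap fun k => (idx (tm k) ++ [(tm k).length]).flatMap fun j => [(k, j, false), (k, j, true)]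

/-- The conjunction of two literals. -/
def gand (P : List (κ × ℕ × Bool)) (t : Lt κ × Lt κ) : PGate :=
  ((!t.1.2.2 && !t.2.2.2, !t.1.2.2 && t.2.2.2, t.1.2.2 && !t.2.2.2, t.1.2.2 && t.2.2.2),
    (P.idxOf (t.1.1, 0, true), t.1.2.1), (P.idxOf (t.2.1, 0, true), t.2.2.1))

/-- The gate of a plain key. -/
def gate (P : List (κ × ℕ × Bool)) (L : List (Lt κ × Lt κ)) (p : κ × ℕ × Bool) : PGate :=
  bif p.2.2 then bif ltB p.2.1 L.length then ((false, true, true, true),
    (P.idxOf (p.1, p.2.1, false), false), (P.idxOf (p.1, p.2.1 + 1, true), false)) else g0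
  else gand P (L.getD p.2.1 ((p.1, false, false), (p.1, false, false)))

/-- The circuit. -/
def circ (K : List κ) (tm : κ → List (Lt κ × Lt κ)) : List PGate :=
  (pk K tm).map (fun p => gate (pk K tm) (tm p.1) p) ++ [g0]

theorem wf (K : List κ) (tm : κ → List (Lt κ × Lt κ)) : PWf (circ K tm) := by
  refine ⟨by simp [circ], fun g hg => ?_⟩
  have l : (circ K tm).length = (pk K tm).length + 1 := by simp [circ]
  have i : ∀ p, (pk K tm).idxOf p < (pk K tm).length + 1 := fun _ =>
    Nat.lt_succ_of_le List.idxOf_le_length
  have z : g0.2.1.1 < (pk K tm).length + 1 ∧ g0.2.2.1 < (pk K tm).length + 1 :=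
    ⟨Nat.succ_pos _, Nat.succ_pos _⟩
  rw [l]
  rcases List.mem_append.1 hg with hg | hg
  · obtain ⟨p, -, rfl⟩ := List.mem_map.1 hg
    unfold gate
    cases p.2.2
    · exact ⟨i _, i _⟩
    · cases ltB p.2.1 (tm p.1).length
      exacts [z, ⟨i _, i _⟩]
  · rw [List.mem_singleton.1 hg]; exact z

theorem ok (K : List κ) (tm : κ → List (Lt κ × Lt κ)) (y : ℕ → V4)
    (h : ∀ i, POk (circ K tm) y i) {k : κ} (hk : k ∈ K) :
    DOk (fun k => y ((pk K tm).idxOf (k, 0, true))) k (tm k) := by
  have g := fun j (hj : j ≤ (tm k).length) (b : Bool) =>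
    h ((pk K tm).idxOf (k, j, b)) (gate (pk K tm) (tm k) (k, j, b)) (by
      have m : (k, j, b) ∈ pk K tm := List.mem_flatMap.2 ⟨k, hk, List.mem_flatMap.2
        ⟨j, by simpa using hj.lt_or_eq, by cases b <;> simp⟩⟩
      have := List.idxOf_lt_length_of_mem m
      rw [circ, List.getElem?_append_left (by simpa), List.getElem?_map,
        List.getElem?_eq_getElem this, List.getElem_idxOf]
      rfl)
  have o : ∀ j < (tm k).length, Forc or (rd false (y ((pk K tm).idxOf (k, j, false))))
      (rd false (y ((pk K tm).idxOf (k, j + 1, true)))) (y ((pk K tm).idxOf (k, j, true))) :=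
    fun j hj => by
      have := g j hj.le true
      simp only [gate, cond_true, ltB_iff.2 hj] at this
      exact (tt_tab or) ▸ this
  have a : ∀ j (hj : j < (tm k).length), Forc
      (fun u v => (u == (tm k)[j].1.2.2) && (v == (tm k)[j].2.2.2))
      (rd (tm k)[j].1.2.1 (y ((pk K tm).idxOf ((tm k)[j].1.1, 0, true))))
      (rd (tm k)[j].2.2.1 (y ((pk K tm).idxOf ((tm k)[j].2.1, 0, true))))
      (y ((pk K tm).idxOf (k, j, false))) := fun j hj => by
    have := g j hj.le false
    simp only [gate, cond_false, List.getD_eq_getElem _ _ hj, gand] at this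
    convert this using 1
    generalize (tm k)[j].1.2.2 = s
    generalize (tm k)[j].2.2.2 = t
    revert s t
    decide
  constructor
  · rintro ⟨p, hp, h1, h2⟩
    obtain ⟨j, hj, rfl⟩ := List.getElem_of_mem hp
    have key : ∀ j ≤ (tm k).length, y ((pk K tm).idxOf (k, j, true)) = ofB true →
        y ((pk K tm).idxOf (k, 0, true)) = ofB true := fun j => by
      induction j with
      | zero => exact fun _ e => e
      | succ j ih =>
        intro u e
        have := o j u
        rw [e, rd_ofB] at this
        exact ih (by omega) (this.right fun _ => Bool.or_true _)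
    have b := a j hj
    have c := o j hj
    rw [h1, h2] at b
    rw [b.pure, rd_ofB] at c
    exact key j hj.le (c.left fun _ => by simp)
  · intro hp
    have key : ∀ d j, j + d = (tm k).length → y ((pk K tm).idxOf (k, j, true)) = ofB false :=
      fun d => by
        induction d with
        | zero =>
          intro j e
          have := g j (by omega) true
          simp only [gate, cond_true, ltB_false_iff.2 (show (tm k).length ≤ j by omega)] at this
          exact this false fun a b _ _ => by cases a <;> cases b <;> rfl
        | succ d ih =>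
          intro j e
          have hj : j < (tm k).length := by omega
          have b := a j hj
          have c := o j hj
          have f : y ((pk K tm).idxOf (k, j, false)) = ofB false := by
            rcases hp _ (List.getElem_mem hj) with u | u <;> rw [u] at b
            · exact b.left fun _ => by simp
            · exact b.right fun _ => by simp
          rw [f, ih (j + 1) (by omega), rd_ofB] at c
          exact c.pure
    exact key _ 0 (Nat.zero_add _)

end Dnf

open Dnf in
theorem dnfS : DnfS := by
  intro α κ _ _ _ keys tm h1 h2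
  have p : Poly fun a => pk (keys a) fun k => tm (a, k) := by unfold pk; fun_prop
  refine ⟨fun a => circ (keys a) fun k => tm (a, k),
    fun u => val u.1.2 ((pk (keys u.1.1) fun k => tm (u.1.1, k)).idxOf (u.2, 0, true)), ?_, ?_,
    fun a => ⟨wf _ _, fun y h k hk => ok _ _ _ h hk⟩⟩
  · unfold circ gate gand
    generalize hq : (fun a => pk (keys a) fun k => tm (a, k)) = q at p
    simp only [show ∀ a, (pk (keys a) fun k => tm (a, k)) = q a from fun a => congrFun hq a]
    fun_prop
  · have := p.comp (f := fun u : (α × List V4) × κ => u.1.1) (by fun_prop)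
    exact p_getD (by fun_prop) (p_idxOf (by fun_prop) this) (p_const _)

end Pool.Agent.PP.F
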