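import Mathlib.Data.Set.Basic
import Mathlib.Tactic.Common
import Mathlib.Tactic.Push

/-! PROJECT PP: labels on the grid around a system of paths in the cube. -/

set_option autoImplicit false

namespace Pool.Agent.PP.Lab

/-- The vertex of the cube. -/
def Pb (m : ℕ) (x : ℕ → ℕ) (i : ℕ) : Prop := 22 ≤ x i ∧ x m < 22

instance (m : ℕ) (x : ℕ → ℕ) (i : ℕ) : Decidable (Pb m x i) := inferInstanceAs (Decidable (_ ∧ _))

/-- The folded coordinate; the vertex is at `10`. -/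
def wv (m : ℕ) (x : ℕ → ℕ) (i : ℕ) : ℕ := if Pb m x i then 44 - x i else x i

def Nr (T w : ℕ) : Prop := 10 < w + T ∧ w < 10 + T

/-- The distance from the line in the direction `k` is less than `T`. -/
def Dn (m : ℕ) (x : ℕ → ℕ) (T k : ℕ) : Prop := Nr T (x m) ∧ ∀ i < m, i ≠ k → Nr T (wv m x i)

section
variable (m : ℕ) (O I : (ℕ → ℕ) → ℕ → Prop) (x : ℕ → ℕ)

def Sg (i : ℕ) : Prop := wv m x i ≤ 10 ∨
  (I x i ∧ ¬Dn m x 3 i ∧ Dn m x 9 i ∧ (16 ≤ wv m x i ∨ ∀ k < m, O x k → wv m x k < 13)) ∨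
  (O x i ∧ Dn m x 3 i)

/-- The label of the coordinate `i < m`. -/
def La (i : ℕ) : Prop := Sg m O I x i ↔ ¬Pb m x i

/-- The label of the last coordinate. -/
def Le : Prop := ¬(25 ≤ x m ∨ 10 < x m ∧
  ((∃ k < m, (I x k ∨ O x k) ∧ Dn m x 6 k ∧ 7 < wv m x k) ∨ ∀ i < m, Nr 3 (x i)))

/-- The vertex is the start or is balanced. -/
def Good : Prop := ((∀ i < m, ¬Pb m x i) → (∀ k, ¬I x k) ∧ ∃ k < m, O x k) ∧
  ((∃ i < m, Pb m x i) → ((∃ k < m, I x k) ↔ ∃ k < m, O x k))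

/-- A system of paths along the edges of the cube. -/
structure Sys : Prop where
  same : ∀ x y, (∀ i < m, Pb m x i ↔ Pb m y i) → ∀ k, (O x k → O y k) ∧ (I x k → I y k)
  edge : ∀ x y, ∀ k < m, (∀ i < m, i ≠ k → (Pb m x i ↔ Pb m y i)) → ¬(Pb m x k ↔ Pb m y k) →
    (O x k ↔ I y k)
  uO : ∀ x k l, O x k → O x l → k = l
  uI : ∀ x k l, I x k → I x l → k = l
  ne : ∀ x k, O x k → ¬I x k

end

variable {m : ℕ} {O I : (ℕ → ℕ) → ℕ → Prop} {x : ℕ → ℕ} {S : Set (ℕ → ℕ)}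

theorem la_zero {i : ℕ} (h : x i = 0) : La m O I x i := by
  have : ¬Pb m x i := fun k => by have := k.1; omega
  exact iff_of_true (Or.inl (by rw [wv, if_neg this]; omega)) this

theorem la_top {i : ℕ} (h : x i = 44) : ¬La m O I x i := fun k => by
  by_cases p : Pb m x i
  · exact k.1 (Or.inl (by rw [wv, if_pos p]; omega)) p
  · have p' : ¬x m < 22 := fun c => p ⟨by omega, c⟩
    rcases k.2 p with c | c | c
    · rw [wv, if_neg p] at c; omega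
    · have := c.2.2.1.1.2; omega
    · have := c.2.1.2; omega

theorem le_zero (h : x m = 0) : Le m O I x := fun k => by omega

theorem le_top (h : x m = 44) : ¬Le m O I x := fun k => k (Or.inl (by omega))

/-- A coordinate that is not special lies at the vertex. -/
theorem gen {i : ℕ} (hi : (∃ x ∈ S, La m O I x i) ∧ ∃ x ∈ S, ¬La m O I x i)
    (h1 : ∀ x ∈ S, ∀ y ∈ S, wv m x i ≤ wv m y i + 1)
    (h2 : ∀ x ∈ S, ∀ y ∈ S, Pb m x i ↔ Pb m y i) (h3 : ∀ x ∈ S, Sg m O I x i → wv m x i ≤ 10) :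
    ∀ x ∈ S, 10 ≤ wv m x i ∧ wv m x i ≤ 11 := by
  obtain ⟨⟨u, u1, u2⟩, v, v1, v2⟩ := hi
  intro x hx
  have a1 := h1 x hx u u1
  have a2 := h1 x hx v v1
  have a3 := h1 u u1 x hx
  have a4 := h1 v v1 x hx
  have a5 := h2 u u1 v v1
  have a6 : Sg m O I u i ↔ wv m u i ≤ 10 := ⟨h3 u u1, Or.inl⟩
  have a7 : Sg m O I v i ↔ wv m v i ≤ 10 := ⟨h3 v v1, Or.inl⟩
  rw [La, a6, a5] at u2
  rw [La, a7] at v2
  by_cases k : Pb m v i
  · simp only [k, not_true, iff_false] at u2 v2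
    omega
  · simp only [k, not_false_iff, iff_true] at u2 v2
    omega

theorem two {i : ℕ} (hi : (∃ x ∈ S, La m O I x i) ∧ ∃ x ∈ S, ¬La m O I x i)
    (h2 : ∀ x ∈ S, ∀ y ∈ S, Pb m x i ↔ Pb m y i) :
    (∃ x ∈ S, Sg m O I x i) ∧ ∃ x ∈ S, ¬Sg m O I x i := by
  obtain ⟨⟨u, u1, u2⟩, v, v1, v2⟩ := hi
  have a5 := h2 u u1 v v1
  rw [La, a5] at u2
  rw [La] at v2
  by_cases k : Pb m v i
  · exact ⟨⟨v, v1, by_contra fun c => v2 (iff_of_false c (not_not.2 k))⟩, u, u1,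
      fun c => u2.1 c k⟩
  · exact ⟨⟨u, u1, u2.2 k⟩, v, v1, fun c => v2 (iff_of_true c k)⟩

/-- The cell at the start of the path. -/
theorem start (hs : Sys m O I) (hS : ∀ x ∈ S, ∀ y ∈ S, ∀ i ≤ m, x i ≤ y i + 1)
    (good : ∀ x ∈ S, Good m O I x)
    (hi : ∀ i < m, (∃ x ∈ S, La m O I x i) ∧ ∃ x ∈ S, ¬La m O I x i) {u : ℕ → ℕ} (u1 : u ∈ S)
    (u2 : Le m O I u) (h0 : ∀ x ∈ S, ∀ i < m, ¬Pb m x i) (h1 : ∀ x ∈ S, 10 ≤ x m) : False := by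
  have w : ∀ x ∈ S, ∀ i < m, wv m x i = x i := fun x hx i k => if_neg (h0 x hx i k)
  have pc : ∀ i < m, ∀ x ∈ S, ∀ y ∈ S, Pb m x i ↔ Pb m y i := fun i k x hx y hy =>
    iff_of_false (h0 x hx i k) (h0 y hy i k)
  obtain ⟨k, km, k1⟩ := ((good u u1).1 (h0 u u1)).2
  have oS : ∀ x ∈ S, O x k := fun x hx => (hs.same u x (fun i c => pc i c u u1 x hx) k).1 k1
  have nI : ∀ x ∈ S, ∀ l, ¬I x l := fun x hx => ((good x hx).1 (h0 x hx)).1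
  have g : ∀ i < m, i ≠ k → ∀ x ∈ S, 10 ≤ x i ∧ x i ≤ 11 := fun i c d x hx =>
    w x hx i c ▸ gen (hi i c) (fun x hx y hy => by
      rw [w x hx i c, w y hy i c]; exact hS x hx y hy i c.le) (pc i c) (fun y hy q =>
        q.elim id fun q => q.elim (fun q => absurd q.1 (nI y hy i))
          fun q => absurd (hs.uO y i k q.1 (oS y hy)) d) x hx
  have dn : ∀ x ∈ S, ∀ T, 2 ≤ T → Nr T (x m) → Dn m x T k := fun x hx T c d =>
    ⟨d, fun i e f => by have := g i e f x hx; rw [w x hx i e, Nr]; omega⟩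
  obtain ⟨⟨a, a1, a2⟩, b, b1, b2⟩ := two (hi k km) (pc k km)
  have a3 : a k ≤ 10 ∨ a m < 13 := a2.imp (fun q => w a a1 k km ▸ q)
    fun q => q.elim (fun q => absurd q.1 (nI a a1 k)) fun q => q.2.1.2
  have b3 : ¬b k ≤ 10 := fun q => b2 (Or.inl (w b b1 k km ▸ q))
  have b4 : ¬Nr 3 (b m) := fun q => b2 (Or.inr (Or.inr ⟨oS b b1, dn b b1 3 (by omega) q⟩))
  have u3 : ¬(10 < u m ∧ Nr 6 (u m) ∧ 7 < u k) := fun q => u2 (Or.inr ⟨q.1, Or.inl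
    ⟨k, km, Or.inr k1, dn u u1 6 (by omega) q.2.1, w u u1 k km ▸ q.2.2⟩⟩)
  have u4 : ¬(10 < u m ∧ Nr 3 (u k)) := fun q => u2 (Or.inr ⟨q.1, Or.inr fun i c => by
    by_cases d : i = k
    · exact d ▸ q.2
    · have := g i c d u u1; rw [Nr]; omega⟩)
  have := h1 b b1
  have := hS b b1 u u1 m le_rfl
  have := hS b b1 u u1 k km.le
  have := hS u u1 a a1 m le_rfl
  have := hS u u1 a a1 k km.le
  simp only [Nr] at b4 u3 u4
  omega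

theorem table {ra aa ba rb ab bb rc ac bc rd ad bd ru au bu rv av bv r a b : ℕ}
    (h1 : r ≤ ra ∧ ra ≤ r + 1 ∧ a ≤ aa ∧ aa ≤ a + 1 ∧ b ≤ ba ∧ ba ≤ b + 1)
    (h2 : r ≤ rb ∧ rb ≤ r + 1 ∧ a ≤ ab ∧ ab ≤ a + 1 ∧ b ≤ bb ∧ bb ≤ b + 1)
    (h3 : r ≤ rc ∧ rc ≤ r + 1 ∧ a ≤ ac ∧ ac ≤ a + 1 ∧ b ≤ bc ∧ bc ≤ b + 1)
    (h4 : r ≤ rd ∧ rd ≤ r + 1 ∧ a ≤ ad ∧ ad ≤ a + 1 ∧ b ≤ bd ∧ bd ≤ b + 1)
    (h5 : r ≤ ru ∧ ru ≤ r + 1 ∧ a ≤ au ∧ au ≤ a + 1 ∧ b ≤ bu ∧ bu ≤ b + 1)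
    (h6 : r ≤ rv ∧ rv ≤ r + 1 ∧ a ≤ av ∧ av ≤ a + 1 ∧ b ≤ bv ∧ bv ≤ b + 1)
    (a1 : aa ≤ 10 ∨ ¬(Nr 3 ra ∧ Nr 3 ba) ∧ (Nr 9 ra ∧ Nr 9 ba) ∧ (16 ≤ aa ∨ ba < 13))
    (b1 : ¬ab ≤ 10)
    (b2 : ¬(¬(Nr 3 rb ∧ Nr 3 bb) ∧ (Nr 9 rb ∧ Nr 9 bb) ∧ (16 ≤ ab ∨ bb < 13)))
    (c1 : bc ≤ 10 ∨ Nr 3 rc ∧ Nr 3 ac) (d1 : ¬bd ≤ 10) (d2 : ¬(Nr 3 rd ∧ Nr 3 ad))
    (u1 : ¬(10 < ru ∧ Nr 6 ru ∧ Nr 6 bu ∧ 7 < au)) (u2 : ¬(10 < ru ∧ Nr 6 ru ∧ Nr 6 au ∧ 7 < bu))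
    (v1 : 10 < rv ∧ rv < 16) (v2 : Nr 6 bv ∧ 7 < av ∨ Nr 6 av ∧ 7 < bv) : False := by
  simp only [Nr] at *
  omega

theorem pr {p q d o : Prop} (c : p ↔ q) : (¬o → ((¬d ↔ ¬q) ↔ (d ↔ (o ↔ ¬p)))) ∧
    (o → ((d ↔ ¬q) ↔ (d ↔ (o ↔ ¬p)))) := by
  by_cases p <;> by_cases q <;> by_cases d <;> by_cases o <;> simp_all

theorem pr' {p q d o : Prop} (c : ¬(p ↔ q)) : (¬o → ((d ↔ ¬q) ↔ (d ↔ (o ↔ ¬p)))) ∧
    (o → ((¬d ↔ ¬q) ↔ (d ↔ (o ↔ ¬p)))) := by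
  by_cases p <;> by_cases q <;> by_cases d <;> by_cases o <;> simp_all

theorem good_tr (hs : Sys m O I) {y : ℕ → ℕ} (h : ∀ i < m, Pb m x i ↔ Pb m y i)
    (g : Good m O I x) : Good m O I y := by
  have a := hs.same x y h
  have b := hs.same y x fun i c => (h i c).symm
  refine ⟨fun q => ?_, fun ⟨i, c, q⟩ => ?_⟩
  · obtain ⟨g1, k, km, g2⟩ := g.1 fun i c e => q i c ((h i c).1 e)
    exact ⟨fun l e => g1 l ((b l).2 e), k, km, (a k).1 g2⟩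
  · have g1 := g.2 ⟨i, c, (h i c).2 q⟩
    exact ⟨fun ⟨k, km, e⟩ => (g1.1 ⟨k, km, (b k).2 e⟩).imp fun l f => ⟨f.1, (a l).1 f.2⟩,
      fun ⟨k, km, e⟩ => (g1.2 ⟨k, km, (b k).1 e⟩).imp fun l f => ⟨f.1, (a l).2 f.2⟩⟩

theorem labels (hs : Sys m O I) (hS : ∀ x ∈ S, ∀ y ∈ S, ∀ i ≤ m, x i ≤ y i + 1)
    {c0 : ℕ → ℕ} (c1 : c0 ∈ S) (good : Good m O I c0)
    (hi : ∀ i < m, (∃ x ∈ S, La m O I x i) ∧ ∃ x ∈ S, ¬La m O I x i)
    (he : (∃ x ∈ S, Le m O I x) ∧ ∃ x ∈ S, ¬Le m O I x) : False := by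
  obtain ⟨⟨u, u1, u2⟩, v, v1, v2⟩ := he
  rw [Le, not_not] at v2
  have lo : ∀ x ∈ S, 10 ≤ x m := fun x hx => by have := hS v v1 x hx m le_rfl; omega
  by_cases h0 : ∀ x ∈ S, ∀ i < m, ¬Pb m x i
  · exact start hs hS (fun x hx => good_tr hs
      (fun i c => iff_of_false (h0 c0 c1 i c) (h0 x hx i c)) good) hi u1 u2 h0 lo
  push Not at h0
  obtain ⟨z, z1, i0, z2, z3⟩ := h0
  obtain ⟨v3, k, km, k1, k2, k3⟩ : 10 < v m ∧ ∃ k < m, (I v k ∨ O v k) ∧ Dn m v 6 k ∧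
      7 < wv m v k := by
    have a1 := hS v v1 z z1 m le_rfl
    have a2 := hS z z1 v v1 i0 z2.le
    have a3 := z3.1
    have a4 := z3.2
    rcases v2 with c | ⟨c, d | d⟩
    · omega
    · exact ⟨c, d⟩
    · have := (d i0 z2).2; omega
  have hi' : ∀ x ∈ S, x m ≤ 16 := fun x hx => by
    have := hS x hx v v1 m le_rfl
    have := k2.1.2
    omega
  have cl : ∀ i < m, ∀ x ∈ S, ∀ y ∈ S, wv m x i ≤ wv m y i + 1 := fun i c x hx y hy => by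
    have := hS x hx y hy i c.le
    have := hS y hy x hx i c.le
    have := hi' x hx
    have := hi' y hy
    simp only [wv, Pb]
    split_ifs <;> omega
  have pc : ∀ i < m, (∀ x ∈ S, wv m x i ≤ 16) → ∀ x ∈ S, ∀ y ∈ S, Pb m x i ↔ Pb m y i :=
    fun i c h x hx y hy => by
      have := hS x hx y hy i c.le
      have := hS y hy x hx i c.le
      have := hi' x hx
      have := hi' y hy
      have a1 := h x hx
      have a2 := h y hy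
      simp only [wv, Pb] at a1 a2 ⊢
      split_ifs at a1 a2 <;> omega
  have nk : ∀ i < m, i ≠ k → ∀ x ∈ S, 4 ≤ wv m x i ∧ wv m x i ≤ 16 := fun i c d x hx => by
    have := cl i c x hx v v1
    have := cl i c v v1 x hx
    have := k2.2 i c d
    rw [Nr] at this
    omega
  have pk : ∀ i < m, i ≠ k → ∀ x ∈ S, ∀ y ∈ S, Pb m x i ↔ Pb m y i := fun i c d =>
    pc i c fun x hx => (nk i c d x hx).2
  by_cases far : ∀ x ∈ S, wv m x k ≤ 16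
  swap
  · push Not at far
    obtain ⟨y, y1, y2⟩ := far
    have big : ∀ x ∈ S, 16 ≤ wv m x k := fun x hx => by have := cl k km y y1 x hx; omega
    have sm : ∀ x ∈ S, (Pb m v k ↔ Pb m x k) → (O v k → O x k) ∧ (I v k → I x k) := fun x hx c =>
      hs.same v x (fun i d => by
        by_cases e : i = k
        exacts [e ▸ c, pk i d e v v1 x hx]) k
    have df : ∀ x ∈ S, ¬(Pb m v k ↔ Pb m x k) → (O v k ↔ I x k) ∧ (O x k ↔ I v k) := fun x hx c =>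
      ⟨hs.edge v x k km (fun i d e => pk i d e v v1 x hx) c,
        hs.edge x v k km (fun i d e => pk i d e x hx v v1) fun q => c q.symm⟩
    have d9 : ∀ x ∈ S, Dn m x 9 k := fun x hx => ⟨by
      have := lo x hx; have := hi' x hx; rw [Nr]; omega, fun i c d => by
      have := nk i c d x hx; rw [Nr]; omega⟩
    have sO : ∀ x ∈ S, O x k → (Sg m O I x k ↔ Dn m x 3 k) := fun x hx c =>
      ⟨fun q => q.elim (fun q => by have := big x hx; omega) fun q =>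
        q.elim (fun q => absurd q.1 (hs.ne x k c)) fun q => q.2, fun q => Or.inr (Or.inr ⟨c, q⟩)⟩
    have sI : ∀ x ∈ S, I x k → (Sg m O I x k ↔ ¬Dn m x 3 k) := fun x hx c =>
      ⟨fun q => q.elim (fun q => by have := big x hx; omega) fun q =>
        q.elim (fun q => q.2.1) fun q => absurd c (hs.ne x k q.1),
        fun q => Or.inr (Or.inl ⟨c, q, d9 x hx, Or.inl (big x hx)⟩)⟩
    have lab : ∀ x ∈ S, (I x k ∨ O x k) ∧
        (La m O I x k ↔ (Dn m x 3 k ↔ (O v k ↔ ¬Pb m v k))) := fun x hx => by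
      have a1 := sm x hx
      have a2 := df x hx
      have a3 := sO x hx
      have a4 := sI x hx
      have a5 := hs.ne v k
      rw [La]
      by_cases c : Pb m v k ↔ Pb m x k <;> rcases k1 with q | q
      · rw [a4 ((a1 c).2 q)]; exact ⟨Or.inl ((a1 c).2 q), (pr c).1 fun e => a5 e q⟩
      · rw [a3 ((a1 c).1 q)]; exact ⟨Or.inr ((a1 c).1 q), (pr c).2 q⟩
      · rw [a3 ((a2 c).2.2 q)]; exact ⟨Or.inr ((a2 c).2.2 q), (pr' c).1 fun e => a5 e q⟩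
      · rw [a4 ((a2 c).1.1 q)]; exact ⟨Or.inl ((a2 c).1.1 q), (pr' c).2 q⟩
    obtain ⟨a, a1, a2, b, b1, b2⟩ : ∃ a ∈ S, Dn m a 3 k ∧ ∃ b ∈ S, ¬Dn m b 3 k := by
      obtain ⟨⟨a, a1, a2⟩, b, b1, b2⟩ := hi k km
      rw [(lab a a1).2] at a2
      rw [(lab b b1).2] at b2
      by_cases c : Dn m a 3 k
      · exact ⟨a, a1, c, b, b1, fun e => b2 (iff_of_true e (a2.1 c))⟩
      · exact ⟨b, b1, by_contra fun e => b2 (iff_of_false e fun f => c (a2.2 f)), a, a1, c⟩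
    have nr : ∀ i < m, i ≠ k → ∀ x ∈ S, 7 ≤ wv m x i ∧ wv m x i ≤ 13 := fun i c d x hx => by
      have := cl i c x hx a a1
      have := cl i c a a1 x hx
      have := a2.2 i c d
      rw [Nr] at this
      omega
    have u3 : ¬10 < u m := fun q => u2 (Or.inr ⟨q, Or.inl ⟨k, km, (lab u u1).1, ⟨by
      have := hS u u1 a a1 m le_rfl; have := a2.1.2; rw [Nr]; omega, fun i c d => by
      have := nr i c d u u1; rw [Nr]; omega⟩, by have := big u u1; omega⟩⟩)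
    refine b2 ⟨by have := hS b b1 u u1 m le_rfl; have := lo b b1; rw [Nr]; omega, fun i c d => ?_⟩
    have := gen (hi i c) (cl i c) (pk i c d) (fun x hx q => q.elim id fun q => by
      have e1 := big x hx
      have e2 := nr i c d x hx
      rcases q with ⟨q1, -, -, q2 | q2⟩ | q
      · omega
      · have := q2 k km ((lab x hx).1.resolve_left fun e => d (hs.uI x i k q1 e))
        omega
      · have := (q.2.2 k km (Ne.symm d)).2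
        omega) b b1
    rw [Nr]
    omega
  have pa : ∀ i < m, ∀ x ∈ S, ∀ y ∈ S, Pb m x i ↔ Pb m y i := fun i c => by
    by_cases d : i = k
    · exact d ▸ pc k km far
    · exact pk i c d
  have sm : ∀ x ∈ S, ∀ l, (O v l → O x l) ∧ (I v l → I x l) := fun x hx =>
    hs.same v x fun i c => pa i c v v1 x hx
  have gd := (good_tr hs (fun i c => pa i c c0 c1 v v1) good).2 ⟨i0, z2, (pa i0 z2 z z1 v v1).1 z3⟩
  obtain ⟨⟨j, jm, j1⟩, l, lm, l1⟩ : (∃ j < m, I v j) ∧ ∃ l < m, O v l :=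
    k1.elim (fun q => ⟨⟨k, km, q⟩, gd.1 ⟨k, km, q⟩⟩) fun q => ⟨gd.2 ⟨k, km, q⟩, k, km, q⟩
  have jS : ∀ x ∈ S, I x j := fun x hx => (sm x hx j).2 j1
  have lS : ∀ x ∈ S, O x l := fun x hx => (sm x hx l).1 l1
  have jl : j ≠ l := fun q => hs.ne v l l1 (q ▸ j1)
  have g : ∀ i < m, i ≠ j → i ≠ l → ∀ x ∈ S, 10 ≤ wv m x i ∧ wv m x i ≤ 11 := fun i c d e =>
    gen (hi i c) (cl i c) (pa i c) fun y hy q => q.elim id fun q => q.elim
      (fun q => absurd (hs.uI y i j q.1 (jS y hy)) d) fun q => absurd (hs.uO y i l q.1 (lS y hy)) e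
  have dj : ∀ x ∈ S, ∀ T, 2 ≤ T → (Dn m x T j ↔ Nr T (x m) ∧ Nr T (wv m x l)) := fun x hx T c =>
    ⟨fun q => ⟨q.1, q.2 l lm jl.symm⟩, fun q => ⟨q.1, fun i d e => by
      by_cases f : i = l
      · exact f ▸ q.2
      · have := g i d e f x hx; rw [Nr]; omega⟩⟩
  have dl : ∀ x ∈ S, ∀ T, 2 ≤ T → (Dn m x T l ↔ Nr T (x m) ∧ Nr T (wv m x j)) := fun x hx T c =>
    ⟨fun q => ⟨q.1, q.2 j jm jl⟩, fun q => ⟨q.1, fun i d e => by
      by_cases f : i = j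
      · exact f ▸ q.2
      · have := g i d f e x hx; rw [Nr]; omega⟩⟩
  have mn : ∀ f : (ℕ → ℕ) → ℕ, (∀ x ∈ S, ∀ y ∈ S, f x ≤ f y + 1) →
      ∃ c, ∀ x ∈ S, c ≤ f x ∧ f x ≤ c + 1 := fun f h => by
    by_cases c : ∀ x ∈ S, f v ≤ f x
    · exact ⟨f v, fun x hx => ⟨c x hx, h x hx v v1⟩⟩
    · push Not at c
      obtain ⟨y, y1, y2⟩ := c
      exact ⟨f y, fun x hx => ⟨by have := h v v1 x hx; omega, h x hx y y1⟩⟩
  obtain ⟨r, hr⟩ := mn (fun x => x m) fun x hx y hy => hS x hx y hy m le_rfl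
  obtain ⟨α, hα⟩ := mn (fun x => wv m x j) (cl j jm)
  obtain ⟨β, hβ⟩ := mn (fun x => wv m x l) (cl l lm)
  have bx : ∀ x ∈ S, r ≤ x m ∧ x m ≤ r + 1 ∧ α ≤ wv m x j ∧ wv m x j ≤ α + 1 ∧ β ≤ wv m x l ∧
      wv m x l ≤ β + 1 := fun x hx =>
    ⟨(hr x hx).1, (hr x hx).2, (hα x hx).1, (hα x hx).2, (hβ x hx).1, (hβ x hx).2⟩
  have s16 : Nr 6 (wv m v l) ∧ 7 < wv m v j ∨ Nr 6 (wv m v j) ∧ 7 < wv m v l := by
    rcases k1 with q | q
    · obtain rfl := hs.uI v k j q j1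
      exact Or.inl ⟨k2.2 l lm jl.symm, k3⟩
    · obtain rfl := hs.uO v k l q l1
      exact Or.inr ⟨k2.2 j jm jl, k3⟩
  obtain ⟨⟨a, a1, a2⟩, b, b1, b2⟩ := two (hi j jm) (pa j jm)
  clear c1
  obtain ⟨⟨c, c1, c2⟩, d, d1, d2⟩ := two (hi l lm) (pa l lm)
  refine table (bx a a1) (bx b b1) (bx c c1) (bx d d1) (bx u u1) (bx v v1) ?_
    (fun q => b2 (Or.inl q)) (fun q => b2 (Or.inr (Or.inl ⟨jS b b1, ?_, ?_, ?_⟩))) ?_
    (fun q => d2 (Or.inl q)) (fun q => d2 (Or.inr (Or.inr ⟨lS d d1, (dl d d1 3 (by omega)).2 q⟩)))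
    (fun q => u2 (Or.inr ⟨q.1, Or.inl ⟨j, jm, Or.inl (jS u u1),
      (dj u u1 6 (by omega)).2 ⟨q.2.1, q.2.2.1⟩, q.2.2.2⟩⟩))
    (fun q => u2 (Or.inr ⟨q.1, Or.inl ⟨l, lm, Or.inr (lS u u1),
      (dl u u1 6 (by omega)).2 ⟨q.2.1, q.2.2.1⟩, q.2.2.2⟩⟩)) ⟨v3, k2.1.2⟩ s16
  · rcases a2 with q | ⟨-, q1, q2, q⟩ | q
    · exact Or.inl q
    · exact Or.inr ⟨fun e => q1 ((dj a a1 3 (by omega)).2 e), (dj a a1 9 (by omega)).1 q2,
        q.imp_right fun e => e l lm (lS a a1)⟩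
    · exact absurd (jS a a1) (hs.ne a j q.1)
  · exact fun e => q.1 ((dj b b1 3 (by omega)).1 e)
  · exact (dj b b1 9 (by omega)).2 q.2.1
  · exact q.2.2.imp_right fun e i _ f => hs.uO b l i (lS b b1) f ▸ e
  · rcases c2 with q | q | q
    · exact Or.inl q
    · exact absurd q.1 (hs.ne c l (lS c c1))
    · exact Or.inr ((dl c c1 3 (by omega)).1 q.2)

end Pool.Agent.PP.Lab
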