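import Pool.Agent.MP_13199e_lc.PP.F.Spec
import Pool.Agent.MP_13199e_lc.PP.F.Lab

/-! PROJECT PP, block F: the labels are computed in polynomial time. -/

set_option autoImplicit false

namespace Pool.Agent.PP.F

open Pool.Agent.MP_13199e_lc Pool.Agent.PolyT Pool.Agent.H82 Pool.Agent.PP.Lab

namespace LB

def xv (y : List ℕ) (k : ℕ) : ℕ := half (y.getD k 0)

def pb (m : ℕ) (y : List ℕ) (i : ℕ) : Bool := ltB 21 (xv y i) && ltB (xv y m) 22

def wb (m : ℕ) (y : List ℕ) (i : ℕ) : ℕ := cond (pb m y i) (44 - xv y i) (xv y i)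

def nr (T w : ℕ) : Bool := ltB 10 (w + T) && ltB w (10 + T)

def dn (R y : List ℕ) (T k : ℕ) : Bool :=
  nr T (xv y R.length) && (idx R).all fun i => eqB i k || nr T (wb R.length y i)

def sg (R y : List ℕ) (j l i : ℕ) : Bool := ltB (wb R.length y i) 11 ||
  (eqB j i && (!dn R y 3 i && (dn R y 9 i && (ltB 15 (wb R.length y i) ||
    (!ltB l R.length || ltB (wb R.length y l) 13)))) || eqB l i && dn R y 3 i)

def le (R y : List ℕ) (j l : ℕ) : Bool := !(ltB 24 (xv y R.length) || ltB 10 (xv y R.length) &&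
  (((idx R).any fun k => (eqB j k || eqB l k) && (dn R y 6 k && ltB 7 (wb R.length y k))) ||
    (idx R).all fun i => nr 3 (xv y i)))

def lb (R y : List ℕ) (j l i : ℕ) : Bool :=
  cond (ltB i R.length) (eqB (sg R y j l i) (!pb R.length y i)) (le R y j l)

def cl (R y : List ℕ) : List Bool := (idx R).map fun i => pb R.length y i

section
variable {α : Type} [N487b59b3 α] {R y : α → List ℕ} {a b c : α → ℕ}

@[fun_prop] theorem p_xv (h1 : Poly y) (h2 : Poly a) : Poly fun u => xv (y u) (a u) := by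
  unfold xv; fun_prop

@[fun_prop] theorem p_pb (h1 : Poly y) (h2 : Poly a) (h3 : Poly b) :
    Poly fun u => pb (a u) (y u) (b u) := by
  unfold pb; fun_prop

@[fun_prop] theorem p_wb (h1 : Poly y) (h2 : Poly a) (h3 : Poly b) :
    Poly fun u => wb (a u) (y u) (b u) := by
  unfold wb; fun_prop

@[fun_prop] theorem p_nr (h2 : Poly a) (h3 : Poly b) : Poly fun u => nr (a u) (b u) := by
  unfold nr; fun_prop

@[fun_prop] theorem p_dn (h0 : Poly R) (h1 : Poly y) (h2 : Poly a) (h3 : Poly b) :
    Poly fun u => dn (R u) (y u) (a u) (b u) := by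
  unfold dn; fun_prop

@[fun_prop] theorem p_sg (h0 : Poly R) (h1 : Poly y) (h2 : Poly a) (h3 : Poly b) (h4 : Poly c) :
    Poly fun u => sg (R u) (y u) (a u) (b u) (c u) := by
  unfold sg; fun_prop

@[fun_prop] theorem p_le (h0 : Poly R) (h1 : Poly y) (h2 : Poly a) (h3 : Poly b) :
    Poly fun u => le (R u) (y u) (a u) (b u) := by
  unfold le; fun_prop

@[fun_prop] theorem p_lb (h0 : Poly R) (h1 : Poly y) (h2 : Poly a) (h3 : Poly b) (h4 : Poly c) :
    Poly fun u => lb (R u) (y u) (a u) (b u) (c u) := by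
  unfold lb; fun_prop

@[fun_prop] theorem p_cl (h0 : Poly R) (h1 : Poly y) : Poly fun u => cl (R u) (y u) := by
  unfold cl; fun_prop

end

variable {m T k i : ℕ} {R y : List ℕ}

theorem pb_iff : pb m y i = true ↔ Pb m (xv y) i := by
  simp only [pb, Pb, Bool.and_eq_true, ltB_iff, Nat.lt_iff_add_one_le]

theorem wb_eq : wb m y i = wv m (xv y) i := by
  rw [wb, wv, Bool.cond_eq_ite]
  exact if_congr pb_iff rfl rfl

theorem nr_iff {w : ℕ} : nr T w = true ↔ Nr T w := by
  simp only [nr, Nr, Bool.and_eq_true, ltB_iff]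

theorem dn_iff : dn R y T k = true ↔ Dn R.length (xv y) T k := by
  simp only [dn, Dn, Bool.and_eq_true, nr_iff, List.all_eq_true, mem_idx, Bool.or_eq_true, eqB_iff,
    wb_eq, or_iff_not_imp_left, Ne]

/-- The cell of a point. -/
def cf (m : ℕ) (x : ℕ → ℕ) : List Bool := (List.range m).map fun i => decide (Pb m x i)

theorem cl_eq : cl R y = cf R.length (xv y) :=
  List.map_congr_left fun _ _ => Bool.eq_iff_iff.2 (by rw [pb_iff, decide_eq_true_iff])

def Ed (m : ℕ) (f : List Bool → ℕ) (x : ℕ → ℕ) (k : ℕ) : Prop := f (cf m x) = k ∧ k < m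

variable {inn out : List Bool → ℕ} {Sol : List Bool → Prop}

theorem lb_lt (h : i < R.length) : lb R y (inn (cl R y)) (out (cl R y)) i = true ↔
    La R.length (Ed R.length out) (Ed R.length inn) (xv y) i := by
  have e : (∀ k < R.length, Ed R.length out (xv y) k → wv R.length (xv y) k < 13) ↔
      (¬out (cf R.length (xv y)) < R.length ∨
        wv R.length (xv y) (out (cf R.length (xv y))) < 13) :=
    ⟨fun q => or_iff_not_imp_left.2 fun c => q _ (not_not.1 c) ⟨rfl, not_not.1 c⟩,
      fun q k c d => q.elim (fun q => absurd (d.1 ▸ c) q) fun q => d.1 ▸ q⟩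
  rw [lb, ltB_iff.2 h, cond_true, eqB_iff, Bool.eq_iff_iff, La, Sg, e]
  simp only [sg, Bool.or_eq_true, Bool.and_eq_true, ltB_iff, eqB_iff, Bool.not_eq_true',
    ← Bool.not_eq_true, dn_iff, pb_iff, wb_eq, cl_eq, Ed, h, and_true, Nat.lt_succ_iff (n := 10),
    Nat.lt_iff_add_one_le (m := 15)]

theorem lb_top : lb R y (inn (cl R y)) (out (cl R y)) R.length = true ↔
    Le R.length (Ed R.length out) (Ed R.length inn) (xv y) := by
  rw [lb, ltB_false_iff.2 le_rfl, cond_false, Le]
  simp only [le, Bool.or_eq_true, Bool.and_eq_true, ltB_iff, eqB_iff, Bool.not_eq_true',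
    ← Bool.not_eq_true, dn_iff, nr_iff, wb_eq, cl_eq, Ed, List.any_eq_true, List.all_eq_true,
    mem_idx]
  exact not_congr (or_congr Iff.rfl (and_congr_right' (or_congr_left (exists_congr fun k =>
    and_congr_right fun c => by simp only [c, and_true]))))

theorem cf_get {x : ℕ → ℕ} (h : i < m) : (cf m x).getD i false = decide (Pb m x i) := by
  simp [cf, List.getD_eq_getElem?_getD, h]

theorem cf_len {x : ℕ → ℕ} : (cf m x).length = m := by simp [cf]

theorem sys (h : Path m inn out Sol) : Sys m (Ed m out) (Ed m inn) where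
  same x y q k := by
    have : cf m x = cf m y :=
      List.map_congr_left fun i c => decide_eq_decide.2 (q i (List.mem_range.1 c))
    simp only [Ed, this, imp_self, and_self]
  edge x y k c q r := and_congr_left fun _ => h.adj _ _ k cf_len cf_len c (fun i d => by
    by_cases e : i < m
    · rw [cf_get e, cf_get e]; exact decide_eq_decide.2 (q i e d)
    · rw [List.getD_eq_default _ _ (by rw [cf_len]; omega),
        List.getD_eq_default _ _ (by rw [cf_len]; omega)])
    (by rw [cf_get c, cf_get c]; exact fun e => r (decide_eq_decide.1 e))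
  uO x k l a b := a.1.symm.trans b.1
  uI x k l a b := a.1.symm.trans b.1
  ne x k a b := h.ne _ cf_len (b.1 ▸ b.2) (b.1.trans a.1.symm)

theorem good (h : Path m inn out Sol) {x : ℕ → ℕ} (s : ¬Sol (cf m x)) :
    Good m (Ed m out) (Ed m inn) x := by
  have e : ∀ f : List Bool → ℕ, (∃ k < m, Ed m f x k) ↔ f (cf m x) < m := fun f =>
    ⟨fun ⟨k, c, d⟩ => d.1 ▸ c, fun c => ⟨_, c, rfl, c⟩⟩
  refine ⟨fun q => ?_, fun ⟨i, c, q⟩ => ?_⟩
  · have z : cf m x = List.replicate m false := List.eq_replicate_iff.2 ⟨cf_len, fun b hb => by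
      obtain ⟨i, c, rfl⟩ := List.mem_map.1 hb
      exact decide_eq_false (q i (List.mem_range.1 c))⟩
    have := h.zero (z ▸ s)
    rw [← z] at this
    exact ⟨fun k c => by have := c.1; have := c.2; omega, (e out).2 this.2⟩
  · rw [e, e]
    refine h.bal _ cf_len (fun z => ?_) s
    have := cf_get (x := x) c
    rw [z, decide_eq_true q] at this
    simp [List.getD_eq_getElem?_getD, c] at this

end LB

open LB in
theorem labS : LabS := by
  intro α _ R inn out p1 p2 p3
  refine ⟨fun u => lb (R u.1) u.2.2 (inn (u.1, cl (R u.1) u.2.2)) (out (u.1, cl (R u.1) u.2.2))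
    u.2.1, fun u => cl (R u.1) u.2, by fun_prop, by fun_prop, fun a Sol h => ⟨fun x i c => ?_,
      fun c _ s => by_contra fun q => ?_⟩⟩
  · rcases c.lt_or_eq with c | rfl
    · have := lb_lt (y := x) (inn := fun p => inn (a, p)) (out := fun p => out (a, p)) c
      exact ⟨fun e => this.2 (la_zero (by rw [xv, e]; rfl)), fun e =>
        Bool.eq_false_iff.2 fun f => la_top (by rw [xv, e]; rfl) (this.1 f)⟩
    · have := lb_top (R := R a) (y := x) (inn := fun p => inn (a, p)) (out := fun p => out (a, p))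
      exact ⟨fun e => this.2 (le_zero (by rw [xv, e]; rfl)), fun e =>
        Bool.eq_false_iff.2 fun f => le_top (by rw [xv, e]; rfl) (this.1 f)⟩
  · push Not at q
    refine labels (S := {x | ∃ y, Near (R a).length c y ∧ x = xv y}) (sys h) ?_ ⟨c, ‹_›, rfl⟩
      (good h (cl_eq (R := R a) ▸ s)) (fun i e => ?_) ?_
    · rintro _ ⟨y, y1, rfl⟩ _ ⟨z, z1, rfl⟩ i e
      have := y1 i e
      have := z1 i e
      simp only [xv, half]
      omega
    · obtain ⟨y, y1, y2⟩ := q i e.le false
      obtain ⟨z, z1, z2⟩ := q i e.le true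
      exact ⟨⟨_, ⟨y, y1, rfl⟩, (lb_lt (inn := fun p => inn (a, p)) (out := fun p => out (a, p))
        e).1 (Bool.ne_false_iff.1 y2)⟩, _, ⟨z, z1, rfl⟩, fun f => z2 ((lb_lt
          (inn := fun p => inn (a, p)) (out := fun p => out (a, p)) e).2 f)⟩
    · obtain ⟨y, y1, y2⟩ := q _ le_rfl false
      obtain ⟨z, z1, z2⟩ := q _ le_rfl true
      exact ⟨⟨_, ⟨y, y1, rfl⟩, (lb_top (inn := fun p => inn (a, p))
        (out := fun p => out (a, p))).1 (Bool.ne_false_iff.1 y2)⟩, _, ⟨z, z1, rfl⟩,
          fun f => z2 ((lb_top (inn := fun p => inn (a, p)) (out := fun p => out (a, p))).2 f)⟩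

end Pool.Agent.PP.F
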