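import Pool.Agent.MP_13199e_lc.PP.F.Spec
import Pool.Agent.Lib.helper82.CookLevin

/-! PROJECT PP, block F: the tableau of a machine as a system of keyed disjunctions. -/

set_option autoImplicit false

namespace Pool.Agent.PP.F

open Pool.Agent.MP_13199e_lc Pool.Agent.PolyT Pool.Agent.H82 N487b59b3 Function

namespace UN

/-- The node `k` carries the truth value of `P`. -/
def Is {κ : Type} (x : κ → V4) (k : κ) (P : Prop) : Prop :=
  (P → x k = ofB true) ∧ (¬P → x k = ofB false)

section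
variable {κ : Type} {x : κ → V4} {k : κ} {P : Prop}

theorem Is.t (h : Is x k P) (p : P) : Lv x (k, false, true) true := by
  rw [Lv, h.1 p, rd_ofB]; rfl

theorem Is.f (h : Is x k P) (p : ¬P) : Lv x (k, false, true) false := by
  rw [Lv, h.2 p, rd_ofB]; rfl

theorem dok {L : List (Lt κ × Lt κ)} (h : DOk x k L)
    (h1 : P → ∃ p ∈ L, Lv x p.1 true ∧ Lv x p.2 true)
    (h2 : ∀ p ∈ L, P ∨ Lv x p.1 false ∨ Lv x p.2 false) : Is x k P :=
  ⟨fun p => h.1 (h1 p), fun q => h.2 fun p hp => (h2 p hp).resolve_left q⟩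

end

variable (N : FSM)

/-- A number that is not a code. -/
noncomputable def top : ℕ := Fintype.card (N.Q ⊕ N.K × Option N.G)

theorem code_lt (c : N.Q ⊕ N.K × Option N.G) : N.code c < top N := (Fintype.equivFin _ c).2

/-- The codes that hold at the position `i` at the start, if the bit that is read is `b`. -/
noncomputable def ini (u : List Bool) (n i : ℕ) (b : Bool) : List ℕ :=
  N.cq N.q₀ :: cond (ltB i (u.length + n))
    (cond (cond (ltB i u.length) (u.getD i false) b) (N.cc N.k₀ (some (N.inp true)))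
      (N.cc N.k₀ (some (N.inp false)))) (N.cc N.k₀ none) :: N.tb

/-- The key that is read at the position `i` at the start. -/
noncomputable def src (l n i : ℕ) : K3 :=
  cond (ltB i (l + n) && !ltB i l) (0, i - l, 0) (1, 0, top N)

def tr (a b : K3) : Lt K3 × Lt K3 := ((a, false, true), (b, false, true))

noncomputable def tm (u : List Bool) (n : ℕ) (k : K3) : List (Lt K3 × Lt K3) :=
  cond (eqB k.1 1)
    (([false, true].filter fun b => (ini N u n k.2.1 b).any fun c => eqB c k.2.2).map fun b =>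
      ((src N u.length n k.2.1, false, b), (src N u.length n k.2.1, false, b)))
    (((N.tz.filter fun p => eqB p.2.2 k.2.2).map fun p =>
        tr (k.1 - 1, 0, p.1) (k.1 - 1, 0, p.2.1)) ++
      (((N.tp.filter fun p => eqB p.2 k.2.2 && eqB k.2.1 0).map fun p =>
        tr (k.1 - 1, 0, p.1) (k.1 - 1, 0, p.1)) ++
      ((N.tc.filter fun p => eqB p.2.1 k.2.2 && !ltB k.2.1 p.2.2.2).map fun p =>
        tr (k.1 - 1, 0, p.1) (k.1 - 1, k.2.1 - p.2.2.2 + p.2.2.1, p.2.1))))

noncomputable def ks (l : List ℕ) : List K3 :=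
  (idx (0 :: l)).flatMap fun t => (idx (0 :: l)).flatMap fun i =>
    (List.range (top N + 1)).map fun c => (t + 1, i, c)

theorem mem_ks {l : List ℕ} {t i c : ℕ} (ht : t ≤ l.length) (hi : i ≤ l.length) (hc : c ≤ top N) :
    (t + 1, i, c) ∈ ks N l := by
  simp only [ks, List.mem_flatMap, List.mem_map, mem_idx, List.length_cons, List.mem_range]
  exact ⟨t, by omega, i, by omega, c, by omega, rfl⟩

variable {N}

theorem cq_inj {q q' : N.Q} : N.cq q = N.cq q' ↔ q = q' := by
  simp only [FSM.cq, N.code_inj.eq_iff, Sum.inl.injEq]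

theorem cc_inj {k k' : N.K} {g g' : Option N.G} : N.cc k g = N.cc k' g' ↔ k = k' ∧ g = g' := by
  simp only [FSM.cc, N.code_inj.eq_iff, Sum.inr.injEq, Prod.mk.injEq]

theorem cq_cc {q : N.Q} {k : N.K} {g : Option N.G} : N.cq q ≠ N.cc k g := by
  simp only [FSM.cq, FSM.cc, Ne, N.code_inj.eq_iff, reduceCtorEq, not_false_eq_true]

variable {u w : List Bool} {l : List ℕ} {x : K3 → V4}

theorem row0 (hw : ∀ j < w.length, x (0, j, 0) = ofB (w.getD j false))
    (h : ∀ k ∈ ks N l, DOk x k (tm N u w.length k)) {i c : ℕ} (hi : i ≤ l.length)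
    (hc : c ≤ top N) : Is x (1, i, c) (c = N.cq N.q₀ ∨
      ∃ k, c = N.cc k ((N.start (u ++ w)).2 k)[i]?) := by
  have z : x (1, 0, top N) = ofB false := (h _ (mem_ks N (Nat.zero_le _) (Nat.zero_le _) le_rfl)).2
    fun p hp => by
      simp only [tm, eqB_iff.2 rfl, cond_true, List.mem_map, List.mem_filter, List.any_eq_true,
        eqB_iff] at hp
      obtain ⟨b, ⟨-, c, h1, rfl⟩, -⟩ := hp
      simp only [ini, List.mem_cons, FSM.tb, List.mem_map, Bool.cond_eq_ite] at h1
      rcases h1 with e | e | ⟨k, -, e⟩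
      · exact absurd e (code_lt N _).ne'
      · split_ifs at e <;> exact absurd e (code_lt N _).ne'
      · exact absurd e (code_lt N _).ne
  obtain ⟨b, b1, b2⟩ : ∃ b, x (src N u.length w.length i) = ofB b ∧
      (u.length ≤ i → i < u.length + w.length → (u ++ w)[i]? = some b) := by
    by_cases e : i < u.length + w.length ∧ ¬i < u.length
    · refine ⟨w.getD (i - u.length) false, ?_, fun e1 e2 => ?_⟩
      · rw [src, ltB_iff.2 e.1, ltB_false_iff.2 (not_lt.1 e.2)]
        exact hw _ (by omega)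
      · rw [List.getElem?_append_right e1, List.getD_eq_getElem _ _ (by omega),
          List.getElem?_eq_getElem]
    · refine ⟨false, ?_, fun e1 e2 => absurd ⟨e2, by omega⟩ e⟩
      rw [src, Bool.cond_eq_ite, if_neg (by simpa using e), z]
  have e : c ∈ ini N u w.length i b ↔
      c = N.cq N.q₀ ∨ ∃ k, c = N.cc k ((N.start (u ++ w)).2 k)[i]? := by
    have e1 : cond (ltB i (u.length + w.length)) (cond (cond (ltB i u.length) (u.getD i false) b)
        (N.cc N.k₀ (some (N.inp true))) (N.cc N.k₀ (some (N.inp false)))) (N.cc N.k₀ none) =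
        N.cc N.k₀ ((N.start (u ++ w)).2 N.k₀)[i]? := by
      simp only [FSM.start, if_true, List.getElem?_map]
      by_cases c1 : i < u.length
      · rw [ltB_iff.2 c1, ltB_iff.2 (by omega), List.getElem?_append_left c1,
          List.getD_eq_getElem _ _ c1, List.getElem?_eq_getElem c1]
        cases u[i] <;> rfl
      · by_cases c2 : i < u.length + w.length
        · rw [ltB_iff.2 c2, ltB_false_iff.2 (not_lt.1 c1), b2 (not_lt.1 c1) c2]
          cases b <;> rfl
        · rw [ltB_false_iff.2 (not_lt.1 c2),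
            List.getElem?_eq_none (by rw [List.length_append]; omega)]
          rfl
    simp only [ini, List.mem_cons, e1, FSM.tb, List.mem_map, Finset.mem_toList, Finset.mem_filter,
      Finset.mem_univ, true_and]
    refine or_congr_right ⟨fun q => q.elim (fun q => ⟨_, q⟩) fun ⟨k, q1, q2⟩ => ⟨k, ?_⟩,
      fun ⟨k, q⟩ => ?_⟩
    · simp only [FSM.start, if_neg q1, List.getElem?_nil, q2]
    · by_cases d : k = N.k₀
      · exact Or.inl (d ▸ q)
      · exact Or.inr ⟨k, d, by simp only [q, FSM.start, if_neg d, List.getElem?_nil]⟩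
  rw [← e]
  have lv : ∀ s, Lv x (src N u.length w.length i, false, s) (b == s) := fun s => by
    rw [Lv, b1, rd_ofB]; cases b <;> cases s <;> rfl
  refine dok (h _ (mem_ks N (Nat.zero_le _) hi hc)) (fun q => ?_) fun p hp => ?_
  · have := lv b
    rw [beq_self_eq_true] at this
    refine ⟨(_, _), ?_, this, this⟩
    simp only [tm, eqB_iff.2 rfl, cond_true, List.mem_map, List.mem_filter, List.any_eq_true,
      eqB_iff]
    exact ⟨b, ⟨by cases b <;> simp, c, q, rfl⟩, rfl⟩
  · simp only [tm, eqB_iff.2 rfl, cond_true, List.mem_map, List.mem_filter, List.any_eq_true,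
      eqB_iff] at hp
    obtain ⟨s, ⟨-, c, h1, rfl⟩, rfl⟩ := hp
    by_cases d : b = s
    · exact Or.inl (d ▸ h1)
    · have := lv s
      rw [beq_eq_false_iff_ne.2 d] at this
      exact Or.inr (Or.inl this)

theorem mem_tm {n t i c : ℕ} {p : Lt K3 × Lt K3} : p ∈ tm N u n (t + 1 + 1, i, c) ↔
    (∃ q g, N.cq (N.M.next q g) = c ∧ tr (t + 1, 0, N.cq q) (t + 1, 0, N.cc (N.M.stk q) g) = p) ∨
    (∃ q g, N.M.op q = some (some g) ∧ N.cc (N.M.stk q) (some g) = c ∧ i = 0 ∧
      tr (t + 1, 0, N.cq q) (t + 1, 0, N.cq q) = p) ∨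
    ∃ q k g, N.cc k g = c ∧ N.ee q k ≤ i ∧
      tr (t + 1, 0, N.cq q) (t + 1, i - N.ee q k + N.dd q k, N.cc k g) = p := by
  rw [tm, eqB_false_iff.2 (by simp), cond_false]
  simp only [List.mem_append, List.mem_map, List.mem_filter, FSM.tz, FSM.tp, FSM.tc,
    Finset.mem_toList, Finset.mem_univ, Finset.mem_filter, true_and, eqB_iff, Bool.and_eq_true,
    Bool.not_eq_true', ltB_false_iff, Nat.add_sub_cancel]
  refine or_congr ⟨?_, ?_⟩ (or_congr ⟨?_, ?_⟩ ⟨?_, ?_⟩)
  · rintro ⟨_, ⟨⟨a, rfl⟩, e⟩, f⟩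
    exact ⟨a.1, a.2, e, f⟩
  · rintro ⟨q, g, e, f⟩
    exact ⟨_, ⟨⟨(q, g), rfl⟩, e⟩, f⟩
  · rintro ⟨_, ⟨⟨a, d, rfl⟩, e⟩, f⟩
    exact ⟨a.1, a.2, d, e.1, e.2, f⟩
  · rintro ⟨q, g, d, e, e', f⟩
    exact ⟨_, ⟨⟨(q, g), d, rfl⟩, e, e'⟩, f⟩
  · rintro ⟨_, ⟨⟨a, rfl⟩, e⟩, f⟩
    exact ⟨a.1, a.2.1, a.2.2, e.1, e.2, f⟩
  · rintro ⟨q, k, g, e, e', f⟩
    exact ⟨_, ⟨⟨(q, k, g), rfl⟩, e, e'⟩, f⟩

theorem rows (hw : ∀ j < w.length, x (0, j, 0) = ofB (w.getD j false))
    (h : ∀ k ∈ ks N l, DOk x k (tm N u w.length k)) (t : ℕ) (ht : t ≤ l.length) :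
    (∀ q, Is x (t + 1, 0, N.cq q) ((N.M.step^[t] (N.start (u ++ w))).1 = q)) ∧
      ∀ k g i, i + t ≤ l.length →
        Is x (t + 1, i, N.cc k g) (((N.M.step^[t] (N.start (u ++ w))).2 k)[i]? = g) := by
  induction t with
  | zero =>
    refine ⟨fun q => ?_, fun k g i hi => ?_⟩
    · have := row0 hw h (Nat.zero_le _) (code_lt N (Sum.inl q)).le
      exact ⟨fun e => this.1 (Or.inl (cq_inj.2 e.symm)), fun e => this.2 fun f =>
        f.elim (fun f => e (cq_inj.1 f).symm) fun ⟨_, f⟩ => cq_cc f⟩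
    · have := row0 hw h hi (code_lt N (Sum.inr (k, g))).le
      refine ⟨fun e => this.1 (Or.inr ⟨k, cc_inj.2 ⟨rfl, e.symm⟩⟩), fun e => this.2 fun f =>
        f.elim (fun f => cq_cc f.symm) fun ⟨_, f⟩ => ?_⟩
      obtain ⟨rfl, f⟩ := cc_inj.1 f
      exact e f.symm
  | succ t ih =>
    obtain ⟨a1, a2⟩ := ih (by omega)
    rw [iterate_succ_apply']
    generalize N.M.step^[t] (N.start (u ++ w)) = d at a1 a2
    refine ⟨fun q => dok (h _ (mem_ks N ht (Nat.zero_le _) (code_lt N _).le)) (fun e => ?_)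
      fun p hp => ?_, fun k g i hi => dok (h _ (mem_ks N ht (by omega) (code_lt N _).le))
        (fun e => ?_) fun p hp => ?_⟩
    · exact ⟨_, mem_tm.2 (Or.inl ⟨d.1, (d.2 (N.M.stk d.1)).head?, cq_inj.2 e, rfl⟩),
        (a1 _).t rfl, (a2 _ _ 0 (by omega)).t List.head?_eq_getElem?.symm⟩
    · rcases mem_tm.1 hp with ⟨r, g, e, rfl⟩ | ⟨r, g, -, e, -⟩ | ⟨r, k, g, e, -⟩
      · by_cases c1 : d.1 = r
        · subst c1
          by_cases c2 : (d.2 (N.M.stk d.1))[0]? = g
          · exact Or.inl (by rw [← cq_inj.1 e, ← c2, ← List.head?_eq_getElem?]; rfl)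
          · exact Or.inr (Or.inr ((a2 _ _ 0 (by omega)).f c2))
        · exact Or.inr (Or.inl ((a1 _).f c1))
      · exact absurd e.symm cq_cc
      · exact absurd e.symm cq_cc
    · have dd : N.dd d.1 k ≤ 1 := by unfold FSM.dd; split_ifs <;> omega
      by_cases he : N.ee d.1 k ≤ i
      · refine ⟨_, mem_tm.2 (Or.inr (Or.inr ⟨d.1, k, g, rfl, he, rfl⟩)), (a1 _).t rfl,
          (a2 _ _ _ (by omega)).t ?_⟩
        rw [← N.step_cell, Nat.sub_add_cancel he, e]
      · unfold FSM.ee at he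
        split_ifs at he with h2
        · obtain ⟨rfl, h3⟩ := h2
          obtain rfl : i = 0 := by omega
          rcases h4 : N.M.op d.1 with _ | _ | g'
          · simp [h4] at h3
          · simp [h4] at h3
          · rw [N.step_push d g' h4] at e
            exact ⟨_, mem_tm.2 (Or.inr (Or.inl ⟨d.1, g', h4, by rw [e], rfl, rfl⟩)),
              (a1 _).t rfl, (a1 _).t rfl⟩
        · omega
    · rcases mem_tm.1 hp with ⟨r, g, e, -⟩ | ⟨r, g', e1, e, rfl, rfl⟩ | ⟨r, k', g', e, e1, rfl⟩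
      · exact absurd e cq_cc
      · obtain ⟨rfl, rfl⟩ := cc_inj.1 e
        by_cases c1 : d.1 = r
        · subst c1
          exact Or.inl (N.step_push d g' e1)
        · exact Or.inr (Or.inl ((a1 _).f c1))
      · obtain ⟨rfl, rfl⟩ := cc_inj.1 e
        by_cases c1 : d.1 = r
        · subst c1
          have dd : N.dd d.1 k' ≤ 1 := by unfold FSM.dd; split_ifs <;> omega
          by_cases c2 : (d.2 k')[i - N.ee d.1 k' + N.dd d.1 k']? = g'
          · exact Or.inl (by rw [← c2, ← N.step_cell, Nat.sub_add_cancel e1])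
          · exact Or.inr (Or.inr ((a2 _ _ _ (by omega)).f c2))
        · exact Or.inr (Or.inl ((a1 _).f c1))

end UN

open UN in
theorem uniS : UniS := by
  intro α _ F hF
  have hv : Poly fun y : α × Raw => y.2.val :=
    Poly.bitsOf (Poly.id.snd : Poly fun y : α × Raw => y.2)
  have hR : Poly fun y : α × Raw => F (y.1, y.2.val) := by fun_prop
  obtain ⟨N, r, hN⟩ := exists_fsm hR
  have hu : Poly fun a : α => delimit (bitEncode a) := Poly.bitsOf (PT.delimit (PT.refl _))
  obtain ⟨U, hU⟩ : ∃ U : α → List Bool, U = fun a => delimit (bitEncode a) := ⟨_, rfl⟩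
  rw [← hU] at hu
  obtain ⟨G, hG, hl⟩ := exists_list_eval (α := α × List ℕ)
    (l := fun a => idx (U a.1) ++ a.2) (by fun_prop) r
  refine ⟨fun a => ks N (G a), fun a => tm N (U a.1.1) a.1.2.length a.2,
    fun a => ((G a).length + 1, 0, N.cc N.k₁ (some (N.out true))), by unfold ks; fun_prop,
    by unfold tm ini src UN.tr; fun_prop, by fun_prop, fun a m => ⟨fun k hk => ?_,
      fun x w h1 h2 h3 => ?_⟩⟩
  · simp only [ks, List.mem_flatMap, List.mem_map] at hk
    obtain ⟨t, -, i, -, c, -, rfl⟩ := hk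
    exact Nat.succ_ne_zero t
  · subst hU
    have e : (N.M.step^[(G (a, m)).length] (N.start (delimit (bitEncode a) ++ w))).2 N.k₁ =
        [N.out (F (a, w))] := hN (a, Raw.mk w) _ (le_of_eq (by
      rw [hl, enc_pair, List.length_append, List.length_append, length_idx, enc_raw, h1]))
    have := (rows (N := N) (u := delimit (bitEncode a)) h2 (by rw [h1]; exact h3) _ le_rfl).2 N.k₁
      (some (N.out true)) 0 (by omega)
    rw [e] at this
    cases c : F (a, w)
    · exact this.2 (by simp [c, N.out_inj.eq_iff])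
    · exact this.1 (by simp [c])

end Pool.Agent.PP.F
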