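import Pool.Agent.MP_13199e_lc.PP.F.Base
import Pool.Agent.MP_13199e_lc.PP.F.Dnf
import Pool.Agent.MP_13199e_lc.PP.F.Uni
import Pool.Agent.MP_13199e_lc.PP.F.Cube
import Pool.Agent.MP_13199e_lc.PP.F.LabS

/-! PROJECT PP, block F: the result. -/

set_option autoImplicit false

namespace Pool.Agent.PP.F

theorem base1 : Base1 := base_of dnfS uniS (grid_of cubeS labS) solS

end Pool.Agent.PP.F
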