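import Pool.Agent.MP_13199e_lc.PP.F.Spec

/-! PROJECT PP, block F: purification chains, thermometers and the counting of clean copies. -/

set_option autoImplicit false

namespace Pool.Agent.PP.F

open Finset

variable {κ : Type} {x : κ → V4}

theorem lv_pure {k : κ} {b : Bool} (fl : Bool) (h : x k = ofB b) : Lv x (k, fl, true) b := by
  simp [Lv, h]

theorem DOk.copy {k : κ} {l : Lt κ} {b : Bool} (h : DOk x k [(l, l)]) (hl : Lv x l b) :
    x k = ofB b := by
  cases b
  · exact h.2 (by simp [hl])
  · exact h.1 (by simp [hl])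

/-- The leaves that are read as true. -/
def isT (v : V4) : Bool := decide (rd true v = some true)

/-- The leaves that are not read as false. -/
def noF (v : V4) : Bool := decide (rd true v ≠ some false)

theorem chain_pure (v : ℕ → κ) (Q : ℕ)
    (h : ∀ a, a + 1 < Q → DOk x (v (a + 1)) [((v a, false, true), (v a, false, true))])
    {b : Bool} {a : ℕ} (ha : x (v a) = ofB b) : ∀ d, a + d < Q → x (v (a + d)) = ofB b := by
  intro d
  induction d with
  | zero => exact fun _ => ha
  | succ d ih => exact fun k => (h (a + d) k).copy (lv_pure false (ih (by omega)))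

theorem chain (v : ℕ → κ) (Q : ℕ)
    (h : ∀ a, a + 1 < Q → DOk x (v (a + 1)) [((v a, false, true), (v a, false, true))]) :
    (List.range Q).countP (fun a => noF (x (v a))) ≤
      (List.range Q).countP (fun a => isT (x (v a))) + 1 := by
  have key : ∀ n ≤ Q, (List.range n).countP (fun a => noF (x (v a))) ≤
      (List.range n).countP (fun a => isT (x (v a))) ∨
      ((List.range n).countP (fun a => noF (x (v a))) ≤
        (List.range n).countP (fun a => isT (x (v a))) + 1 ∧ (n < Q → x (v n) = ofB true)) := by
    intro n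
    induction n with
    | zero => simp
    | succ n ih =>
      intro hn
      simp only [List.range_succ, List.countP_append, List.countP_singleton]
      rcases ih (by omega) with k | ⟨k, e⟩
      · by_cases c : x (v n) = 2
        · refine Or.inr ⟨by split_ifs <;> omega, fun d => (h n d).copy (by simp [Lv, c, rd])⟩
        · have : noF (x (v n)) = isT (x (v n)) := by
            revert c
            generalize x (v n) = w
            revert w
            decide
          rw [this]
          omega
      · have e' := e (by omega)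
        refine Or.inr ⟨?_, fun d => (h n d).copy (lv_pure false e')⟩
        rw [e', show noF (ofB true) = true by decide, show isT (ofB true) = true by decide]
        omega
  rcases key Q le_rfl with k | k <;> omega

theorem thermo (T : ℕ → ℕ → κ) (lf : ℕ → κ) (n L : ℕ) (h0 : ∀ l < L, DOk x (T 0 l) [])
    (h1 : ∀ a < n, ∀ l < L, DOk x (T (a + 1) l) [((T a l, false, true), (T a l, false, true)),
      ((lf a, true, true), if l = 0 then (lf a, true, true) else (T a (l - 1), false, true))]) :
    ∀ a ≤ n, ∀ l < L,
      (l < (List.range a).countP (fun a => isT (x (lf a))) → x (T a l) = ofB true) ∧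
      ((List.range a).countP (fun a => noF (x (lf a))) ≤ l → x (T a l) = ofB false) := by
  intro a
  induction a with
  | zero => exact fun _ l hl => ⟨by simp, fun _ => (h0 l hl).2 (by simp)⟩
  | succ a ih =>
    intro ha l hl
    have i1 := ih (by omega) l hl
    have i2 := ih (by omega) (l - 1) (by omega)
    have g := h1 a (by omega) l hl
    simp only [List.range_succ, List.countP_append, List.countP_singleton]
    refine ⟨fun k => g.1 ?_, fun k => g.2 ?_⟩
    · simp only [List.mem_cons, List.not_mem_nil, or_false, exists_eq_or_imp, exists_eq_left]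
      by_cases c : l < (List.range a).countP (fun a => isT (x (lf a)))
      · exact Or.inl ⟨lv_pure false (i1.1 c), lv_pure false (i1.1 c)⟩
      have e : isT (x (lf a)) = true := by
        by_contra d
        rw [if_neg d] at k
        omega
      have e' : Lv x (lf a, true, true) true := by simpa [Lv, isT] using e
      refine Or.inr ⟨e', ?_⟩
      rw [if_pos e] at k
      split_ifs with d
      exacts [e', lv_pure false (i2.1 (by omega))]
    · simp only [List.mem_cons, List.not_mem_nil, or_false, forall_eq_or_imp, forall_eq]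
      refine ⟨Or.inl (lv_pure false (i1.2 (by omega))), ?_⟩
      by_cases e : noF (x (lf a)) = true
      · rw [if_pos e] at k
        rw [if_neg (by omega)]
        exact Or.inr (lv_pure false (i2.2 (by omega)))
      · exact Or.inl (by simpa [Lv, noF] using e)

/-- The thresholds. -/
def thr (N Q l c : ℕ) : ℕ := N * Q + (3 * N * l + c) * (3 * N)

theorem thr_lt {N l c : ℕ} (hN : 0 < N) (hl : l < 88) (hc : c < 3 * N) :
    thr N (3 * N * (3 * N * 88)) l c < 2 * N * (3 * N * (3 * N * 88)) := by
  have a1 : 3 * N * l + c < 3 * N * 88 := by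
    have := Nat.mul_le_mul_left (3 * N) (show l ≤ 87 by omega)
    omega
  have a2 := Nat.mul_lt_mul_of_pos_right a1 (show 0 < 3 * N by omega)
  have a3 := Nat.le_mul_of_pos_left (3 * N * (3 * N * 88)) hN
  rw [mul_comm (3 * N * 88)] at a2
  unfold thr
  rw [mul_assoc 2 N]
  omega

theorem count_near (p q : ℕ → Bool) (n : ℕ) (h : ∀ l, p (l + 1) = true → q l = true) :
    ((List.range n).filter p).length ≤ ((List.range n).filter q).length + 1 := by
  rw [← List.countP_eq_length_filter, ← List.countP_eq_length_filter]
  cases n with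
  | zero => simp
  | succ n =>
    have a1 : (List.range n).countP (p ∘ Nat.succ) ≤ (List.range n).countP q :=
      List.countP_mono_left fun l _ => h l
    have a2 : (List.range n).countP q ≤ (List.range (n + 1)).countP q := by
      rw [List.range_succ, List.countP_append]; omega
    rw [List.range_succ_eq_map, List.countP_cons, List.countP_map]
    rw [List.range_succ_eq_map] at a2
    split_ifs <;> omega

/-- The counting argument: `A i` and `B i` are the numbers of leaves that are true and not false,
`X c` is the point that the copy `c` reads if it is clean. -/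
theorem sample {m : ℕ} {lam : ℕ → List ℕ → Bool} {Sol : List ℕ → Prop} (hL : Lab m lam Sol)
    (N Q : ℕ) (hN : N = m + 1) (hQ : Q = 3 * N * (3 * N * 88)) (a b : ℕ → ℕ → ℕ)
    (X : ℕ → List ℕ) (ab : ∀ i < N, ∀ c < 3 * N, b i c ≤ a i c + 1 ∧ b i c ≤ Q)
    (hX : ∀ c < 3 * N, (∀ i < N, ∀ l < 88, thr N Q l c < ∑ c ∈ range (3 * N), a i c ∨
        ∑ c ∈ range (3 * N), b i c ≤ thr N Q l c) → ∀ i < N,
      (X c).getD i 0 = ((List.range 88).filter fun l =>
        decide (thr N Q l c < ∑ c ∈ range (3 * N), a i c)).length ∧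
      (lam i (X c) = true → a i c = Q) ∧ (lam i (X c) = false → b i c = 0))
    (le : ∀ i < N, ∀ c < 3 * N, a i c ≤ b i c) : ∃ c < 3 * N, Sol (X c) := by
  classical
  by_contra no
  push Not at no
  obtain ⟨A, hA⟩ : ∃ A : ℕ → ℕ, ∀ i, ∑ c ∈ range (3 * N), a i c = A i := ⟨_, fun _ => rfl⟩
  obtain ⟨B, hB⟩ : ∃ B : ℕ → ℕ, ∀ i, ∑ c ∈ range (3 * N), b i c = B i := ⟨_, fun _ => rfl⟩
  simp only [hA, hB] at hX
  have BA : ∀ i < N, B i ≤ A i + 3 * N := fun i hi => by
    have := sum_le_sum (s := range (3 * N)) fun c hc => (ab i hi c (mem_range.1 hc)).1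
    rwa [sum_add_distrib, hA, hB, sum_const, card_range, smul_eq_mul, mul_one] at this
  have AB : ∀ i < N, A i ≤ B i := fun i hi =>
    hA i ▸ hB i ▸ sum_le_sum fun c hc => le i hi c (mem_range.1 hc)
  obtain ⟨U, hU⟩ : ∃ U : Finset ℕ, ∀ c, c ∈ U ↔ c ∈ range (3 * N) ∧
      ¬∀ i < N, ∀ l < 88, thr N Q l c < A i ∨ B i ≤ thr N Q l c := ⟨_, fun _ => mem_filter⟩
  have cU : U.card ≤ N := by
    have a1 : U ⊆ (range N).biUnion fun i => (range (3 * N)).filter fun c =>
        ∃ l, A i ≤ thr N Q l c ∧ thr N Q l c < B i := fun c hc => by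
      obtain ⟨c1, c2⟩ := (hU c).1 hc
      push Not at c2
      obtain ⟨i, i1, l, -, i2⟩ := c2
      exact mem_biUnion.2 ⟨i, mem_range.2 i1, mem_filter.2 ⟨c1, l, i2⟩⟩
    refine (card_le_card a1).trans ((card_biUnion_le_card_mul _ _ 1 fun i hi => ?_).trans (by simp))
    refine card_le_one.2 fun c hc d hd => ?_
    obtain ⟨c1, l, c2, c3⟩ := mem_filter.1 hc
    obtain ⟨d1, k, d2, d3⟩ := mem_filter.1 hd
    have := BA i (mem_range.1 hi)
    have e : ∀ u v : ℕ, A i ≤ N * Q + u * (3 * N) → N * Q + v * (3 * N) < B i → v ≤ u :=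
      fun u v h1 h2 => by
        by_contra g
        have := Nat.mul_le_mul_right (3 * N) (show u + 1 ≤ v by omega)
        rw [add_mul] at this
        omega
    have e1 := le_antisymm (e _ _ d2 c3) (e _ _ c2 d3)
    have e2 := congrArg (· % (3 * N)) e1
    simpa [Nat.mod_eq_of_lt (mem_range.1 c1), Nat.mod_eq_of_lt (mem_range.1 d1)] using e2
  have sU : U ⊆ range (3 * N) := fun c hc => ((hU c).1 hc).1
  have cC := card_sdiff_add_card_eq_card sU
  rw [card_range] at cC
  have cl : ∀ c ∈ range (3 * N) \ U, c < 3 * N ∧ ∀ i < N, _ := fun c hc =>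
    ⟨mem_range.1 (mem_sdiff.1 hc).1, hX c (mem_range.1 (mem_sdiff.1 hc).1) (by_contra fun k =>
      (mem_sdiff.1 hc).2 ((hU c).2 ⟨(mem_sdiff.1 hc).1, k⟩))⟩
  have near : ∀ c ∈ range (3 * N) \ U, ∀ d ∈ range (3 * N) \ U, Near m (X c) (X d) := by
    have st : ∀ c d l, c < 3 * N → thr N Q l c ≤ thr N Q (l + 1) d := fun c d l hc =>
      Nat.add_le_add_left (Nat.mul_le_mul_right _ (by rw [mul_add]; omega)) _
    intro c hc d hd k hk
    rw [((cl c hc).2 k (by omega)).1, ((cl d hd).2 k (by omega)).1]
    refine ⟨(List.length_filter_le _ _).trans (by simp), count_near _ _ _ fun l h => ?_,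
      count_near _ _ _ fun l h => ?_⟩
    · exact decide_eq_true ((st c d l (cl c hc).1).trans_lt (of_decide_eq_true h))
    · exact decide_eq_true ((st d c l (cl d hd).1).trans_lt (of_decide_eq_true h))
  obtain ⟨c, hc⟩ := card_pos.1 (show 0 < (range (3 * N) \ U).card by omega)
  obtain ⟨i, hi, s, hs⟩ := hL.2 (X c) (near c hc c hc) (no c (cl c hc).1)
  have iN : i < N := by omega
  have e0 := ((cl c hc).2 i iN).1
  have e1 := hs _ (near c hc c hc)
  cases s
  · have b1 : B i ≤ N * Q := by
      rw [← hB, ← sum_sdiff sU, sum_eq_zero fun d hd =>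
        ((cl d hd).2 i iN).2.2 (hs _ (near c hc d hd)), zero_add]
      exact (sum_le_card_nsmul _ _ Q fun d hd => (ab i iN d (mem_range.1 (sU hd))).2).trans
        (Nat.mul_le_mul_right _ cU)
    have := AB i iN
    rw [List.filter_eq_nil_iff.2 fun l _ h => by
      have := of_decide_eq_true h
      unfold thr at this
      omega] at e0
    rw [(hL.1 _ i hi).1 e0] at e1
    cases e1
  · have b1 : 2 * N * Q ≤ A i := by
      rw [← hA, ← sum_sdiff sU, sum_congr rfl fun d hd =>
        ((cl d hd).2 i iN).2.1 (hs _ (near c hc d hd)), sum_const, smul_eq_mul]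
      exact (Nat.mul_le_mul_right _ (by omega)).trans (Nat.le_add_right _ _)
    rw [List.filter_eq_self.2 fun l hl => decide_eq_true (by
      subst hQ
      exact (thr_lt (by omega) (List.mem_range.1 hl) (cl c hc).1).trans_le b1)] at e0
    rw [(hL.1 _ i hi).2 e0] at e1
    cases e1

end Pool.Agent.PP.F
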