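import Pool.Agent.MP_13199e_lc.PP.Model

/-! PROJECT PP, block F: statements of the parts. -/

set_option autoImplicit false

namespace Pool.Agent.PP.F

open Pool.Agent.MP_13199e_lc Pool.Agent.PolyT

/-- A literal: a key, a flag and the value of the read that makes the literal true. -/
abbrev Lt (κ : Type) : Type := κ × Bool × Bool

/-- The literal `l` has the value `c`. -/
def Lv {κ : Type} (x : κ → V4) (l : Lt κ) (c : Bool) : Prop :=
  rd l.2.1 (x l.1) = some (c == l.2.2)

/-- The node `k` is the disjunction of the terms of `L`, each a conjunction of two literals. -/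
def DOk {κ : Type} (x : κ → V4) (k : κ) (L : List (Lt κ × Lt κ)) : Prop :=
  ((∃ p ∈ L, Lv x p.1 true ∧ Lv x p.2 true) → x k = ofB true) ∧
    ((∀ p ∈ L, Lv x p.1 false ∨ Lv x p.2 false) → x k = ofB false)

/-- DNF: systems of keyed disjunctions are plain circuits. -/
def DnfS : Prop :=
  ∀ (α κ : Type) [N487b59b3 α] [N487b59b3 κ] [DecidableEq κ] (keys : α → List κ)
    (tm : α × κ → List (Lt κ × Lt κ)), Poly keys → Poly tm →
    ∃ (f : α → List PGate) (r : (α × List V4) × κ → V4), Poly f ∧ Poly r ∧ ∀ a, PWf (f a) ∧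
      ∀ y, (∀ i, POk (f a) (val y) i) →
        ∀ k ∈ keys a, DOk (fun k => r ((a, y), k)) k (tm (a, k))

abbrev K3 : Type := ℕ × ℕ × ℕ

/-- UNI: a polynomial time test on `m.length` pure input bits, which sit at the keys `(0, j, 0)`,
is computed by a uniform system of keyed disjunctions. -/
def UniS : Prop :=
  ∀ (α : Type) [N487b59b3 α] (F : α × List Bool → Bool), Poly F →
    ∃ (ks : α × List ℕ → List K3) (tm : (α × List ℕ) × K3 → List (Lt K3 × Lt K3))
      (o : α × List ℕ → K3), Poly ks ∧ Poly tm ∧ Poly o ∧ ∀ a m, (∀ k ∈ ks (a, m), k.1 ≠ 0) ∧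
      ∀ (x : K3 → V4) (w : List Bool), w.length = m.length →
        (∀ j < w.length, x (0, j, 0) = ofB (w.getD j false)) →
        (∀ k ∈ ks (a, m), DOk x k (tm ((a, m), k))) → x (o (a, m)) = ofB (F (a, w))

/-- A system of directed paths along the edges of the cube of dimension `m`: `inn p` and `out p`
are the directions of the edges into and out of `p`; a value that is at least `m` means none. -/
structure Path (m : ℕ) (inn out : List Bool → ℕ) (Sol : List Bool → Prop) : Prop where
  adj : ∀ p q i, p.length = m → q.length = m → i < m →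
    (∀ k, k ≠ i → p.getD k false = q.getD k false) → p.getD i false ≠ q.getD i false →
    (out p = i ↔ inn q = i)
  ne : ∀ p, p.length = m → inn p < m → inn p ≠ out p
  zero : ¬Sol (List.replicate m false) →
    m ≤ inn (List.replicate m false) ∧ out (List.replicate m false) < m
  bal : ∀ p, p.length = m → p ≠ List.replicate m false → ¬Sol p → (inn p < m ↔ out p < m)

/-- CUBE: END OF THE LINE along the edges of a cube. -/
def CubeS : Prop :=
  ∃ inn out : (BCirc × BCirc) × List Bool → ℕ, Poly inn ∧ Poly out ∧ ∀ I, EolInst I →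
    Path (2 * I.1.2.length + 1) (fun p => inn (I, p)) (fun p => out (I, p))
      fun p => EolSol I (p.take I.1.2.length)

/-- `y` is a point of the grid with the coordinates `0, …, m` that is next to `c`. -/
def Near (m : ℕ) (c y : List ℕ) : Prop :=
  ∀ k ≤ m, y.getD k 0 ≤ 88 ∧ y.getD k 0 ≤ c.getD k 0 + 1 ∧ c.getD k 0 ≤ y.getD k 0 + 1

/-- Labels of the grid: they point inside on the boundary, and next to a point that does not give
a solution some coordinate has a constant label. -/
def Lab (m : ℕ) (lam : ℕ → List ℕ → Bool) (Sol : List ℕ → Prop) : Prop :=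
  (∀ x, ∀ i ≤ m, (x.getD i 0 = 0 → lam i x = true) ∧ (x.getD i 0 = 88 → lam i x = false)) ∧
    ∀ c, Near m c c → ¬Sol c → ∃ i ≤ m, ∃ b, ∀ y, Near m c y → lam i y = b

/-- LABELS -/
def LabS : Prop :=
  ∀ (α : Type) [N487b59b3 α] (R : α → List ℕ) (inn out : α × List Bool → ℕ), Poly R → Poly inn →
    Poly out → ∃ (lam : α × ℕ × List ℕ → Bool) (cell : α × List ℕ → List Bool), Poly lam ∧
      Poly cell ∧ ∀ a Sol, Path (R a).length (fun p => inn (a, p)) (fun p => out (a, p)) Sol →
        Lab (R a).length (fun i x => lam (a, i, x)) fun c => Sol (cell (a, c))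

/-- The grid problem is hard. -/
def GridS : Prop :=
  ∃ (R : BCirc × BCirc → List ℕ) (lam : (BCirc × BCirc) × ℕ × List ℕ → Bool)
    (dec : (BCirc × BCirc) × List ℕ → List Bool), Poly R ∧ Poly lam ∧ Poly dec ∧
      ∀ I, EolInst I → Lab (R I).length (fun i x => lam (I, i, x)) fun c => EolSol I (dec (I, c))

/-- Solutions are recognized in polynomial time. -/
def SolS : Prop :=
  ∃ t : (BCirc × BCirc) × List Bool → Bool, Poly t ∧ ∀ I x, t (I, x) = true ↔ EolSol I x

theorem grid_of (h1 : CubeS) (h2 : LabS) : GridS := by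
  obtain ⟨inn, out, p1, p2, h⟩ := h1
  obtain ⟨lam, cell, p3, p4, k⟩ := h2 _ (fun I : BCirc × BCirc => 0 :: (I.1.2 ++ I.1.2)) inn out
    (by fun_prop) p1 p2
  refine ⟨_, lam, fun a => (cell a).take a.1.1.2.length, by fun_prop, p3, by fun_prop,
    fun I hI => k I (fun p => EolSol I (p.take I.1.2.length)) ?_⟩
  rw [List.length_cons, List.length_append, ← two_mul]
  exact h I hI

end Pool.Agent.PP.F
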